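import Pool.Agent.TH444.DC.Asm

set_option autoImplicit false

namespace Pool.Agent.TH444.DC.Final

open SimpleGraph Pool.Agent.TH444.DC

theorem final (hSD : S_D) :
  ∀ t : ℕ, Odd t →
    ∃ L : ℕ, Odd L ∧ 3 ≤ L ∧ ∀ ℓ : ℕ, Odd ℓ → 3 ≤ ℓ →
      (ℓ < L →
        (∃ c : ℝ, 0 < c ∧ ∃ D : ℕ, ∀ d : ℕ, D ≤ d →
          ∃ n : ℕ, ∃ G : SimpleGraph (Fin n),
            (∀ v, (G.neighborSet v).ncard ≤ d) ∧
            (¬ ∃ v : Fin n, ∃ p : G.Walk v v, p.IsCycle ∧ p.length = ℓ) ∧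
            ∀ k : ℕ, (k : ℝ) < c * (d : ℝ) ^ t →
              ¬ (SimpleGraph.fromRel (fun u v => ∃ p : G.Walk u v, p.length ≤ t)).Colorable k) ∧
        (∃ C : ℝ, 0 < C ∧ ∃ D : ℕ, ∀ d : ℕ, D ≤ d →
          ∀ n : ℕ, ∀ G : SimpleGraph (Fin n),
            (∀ v, (G.neighborSet v).ncard ≤ d) →
            (¬ ∃ v : Fin n, ∃ p : G.Walk v v, p.IsCycle ∧ p.length = ℓ) →
            (SimpleGraph.fromRel (fun u v => ∃ p : G.Walk u v, p.length ≤ t)).Colorable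
              ⌊C * (d : ℝ) ^ t⌋₊)) ∧
      (L ≤ ℓ →
        (∃ c : ℝ, 0 < c ∧ ∃ D : ℕ, ∀ d : ℕ, D ≤ d →
          ∃ n : ℕ, ∃ G : SimpleGraph (Fin n),
            (∀ v, (G.neighborSet v).ncard ≤ d) ∧
            (¬ ∃ v : Fin n, ∃ p : G.Walk v v, p.IsCycle ∧ p.length = ℓ) ∧
            ∀ k : ℕ, (k : ℝ) < c * (d : ℝ) ^ t / Real.log (d : ℝ) →
              ¬ (SimpleGraph.fromRel (fun u v => ∃ p : G.Walk u v, p.length ≤ t)).Colorable k) ∧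
        (∃ C : ℝ, 0 < C ∧ ∃ D : ℕ, ∀ d : ℕ, D ≤ d →
          ∀ n : ℕ, ∀ G : SimpleGraph (Fin n),
            (∀ v, (G.neighborSet v).ncard ≤ d) →
            (¬ ∃ v : Fin n, ∃ p : G.Walk v v, p.IsCycle ∧ p.length = ℓ) →
            (SimpleGraph.fromRel (fun u v => ∃ p : G.Walk u v, p.length ≤ t)).Colorable
              ⌊C * (d : ℝ) ^ t / Real.log (d : ℝ)⌋₊)) := by
  rintro t ⟨s, rfl⟩
  refine ⟨3 * (2 * s + 1), ?_, by omega, fun l hl hl3 => ⟨fun hlt => ⟨?_, ?_⟩, fun hle => ⟨?_, ?_⟩⟩⟩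
  · exact ⟨3 * s + 1, by ring⟩
  · exact Asm.lower_short s l hl hlt
  · obtain ⟨C, hC, D, h⟩ := Asm.upper_short (2 * s + 1)
    exact ⟨C, hC, D, fun d hd n G hG _ => h d hd n G hG⟩
  · exact Asm.lower_long hSD s l hl
  · obtain ⟨j, rfl⟩ : ∃ j, l = 3 * (2 * s + 1) + 2 * j := by
      obtain ⟨q, hq⟩ := hl
      exact ⟨q - (3 * s + 1), by omega⟩
    exact Asm.upper_long (2 * s + 1) j (by omega)

end Pool.Agent.TH444.DC.Final
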