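import Pool.Agent.TH444.DC.Comp

set_option autoImplicit false

/-!
# The composed graph: odd closed walks and distances
-/

namespace Pool.Agent.TH444.DC.Comp

open Finset

variable {X : Type} {F : SimpleGraph X} {r m : ℕ}

/-- `y` is a base vertex at distance (at most) `n` from `z` -/
def Wt (z : Vt F r m) (y : X) (n : ℕ) : Prop :=
  match z with
  | Sum.inl (x, i, _) => y = x ∧ n = min i.val (2 * r + 2 - i.val)
  | Sum.inr (e, j, _) => (y = e.fst ∧ n = j.val + 1) ∨ (y = e.snd ∧ n = 2 * r + 2 - j.val)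

theorem val_succ (i : Fin (2 * r + 2)) :
    (i + 1).val = i.val + 1 ∧ i.val + 1 < 2 * r + 2 ∨ (i + 1).val = 0 ∧ i.val + 1 = 2 * r + 2 := by
  have h2 : ((1 : Fin (2 * r + 2)) : ℕ) = 1 := by
    rw [Fin.val_one']
    exact Nat.mod_eq_of_lt (by omega)
  have h3 := i.isLt
  rw [Fin.val_add, h2]
  rcases Nat.lt_or_ge (i.val + 1) (2 * r + 2) with h4 | h4
  · left; exact ⟨Nat.mod_eq_of_lt h4, h4⟩
  · right
    have h5 : i.val + 1 = 2 * r + 2 := by omega
    rw [h5, Nat.mod_self]; exact ⟨rfl, rfl⟩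

/-- how a witness changes along an edge -/
def Nx (F : SimpleGraph X) (r : ℕ) (y : X) (n : ℕ) (y' : X) (n' : ℕ) : Prop :=
  (y' = y ∧ (n' = n + 1 ∨ n = n' + 1)) ∨ (F.Adj y' y ∧ n = 2 * r + 2 ∧ n' = 0)

theorem wt_step1 {a b : Vt F r m} (h : Rl F r m a b) {y : X} {n : ℕ} (hw : Wt a y n) :
    ∃ y' n', Wt b y' n' ∧ Nx F r y n y' n' := by
  cases h with
  | loop x i w w' h =>
    obtain ⟨rfl, rfl⟩ := hw
    refine ⟨y, _, ⟨rfl, rfl⟩, Or.inl ⟨rfl, ?_⟩⟩
    have := val_succ i
    omega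
  | out e w =>
    obtain ⟨rfl, rfl⟩ := hw
    refine ⟨e.fst, _, Or.inl ⟨rfl, rfl⟩, Or.inl ⟨rfl, ?_⟩⟩
    simp
  | step e j hj u u' h =>
    rcases hw with ⟨rfl, rfl⟩ | ⟨rfl, rfl⟩
    · exact ⟨e.fst, _, Or.inl ⟨rfl, rfl⟩, Or.inl ⟨rfl, Or.inl rfl⟩⟩
    · refine ⟨e.snd, _, Or.inr ⟨rfl, rfl⟩, Or.inl ⟨rfl, ?_⟩⟩
      simp only
      omega
  | inn e w =>
    rcases hw with ⟨rfl, rfl⟩ | ⟨rfl, rfl⟩
    · refine ⟨e.snd, _, ⟨rfl, rfl⟩, Or.inr ⟨e.adj.symm, rfl, ?_⟩⟩
      simp
    · refine ⟨e.snd, _, ⟨rfl, rfl⟩, Or.inl ⟨rfl, ?_⟩⟩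
      simp

theorem wt_step2 {a b : Vt F r m} (h : Rl F r m b a) {y : X} {n : ℕ} (hw : Wt a y n) :
    ∃ y' n', Wt b y' n' ∧ Nx F r y n y' n' := by
  cases h with
  | loop x i w w' h =>
    obtain ⟨rfl, rfl⟩ := hw
    refine ⟨y, _, ⟨rfl, rfl⟩, Or.inl ⟨rfl, ?_⟩⟩
    have := val_succ i
    omega
  | out e w =>
    rcases hw with ⟨rfl, rfl⟩ | ⟨rfl, rfl⟩
    · refine ⟨e.fst, _, ⟨rfl, rfl⟩, Or.inl ⟨rfl, ?_⟩⟩
      simp
    · refine ⟨e.fst, _, ⟨rfl, rfl⟩, Or.inr ⟨e.adj, ?_, ?_⟩⟩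
      · simp
      · simp
  | step e j hj u u' h =>
    rcases hw with ⟨rfl, rfl⟩ | ⟨rfl, rfl⟩
    · exact ⟨e.fst, _, Or.inl ⟨rfl, rfl⟩, Or.inl ⟨rfl, Or.inr rfl⟩⟩
    · refine ⟨e.snd, _, Or.inr ⟨rfl, rfl⟩, Or.inl ⟨rfl, ?_⟩⟩
      simp only
      omega
  | inn e w =>
    obtain ⟨rfl, rfl⟩ := hw
    refine ⟨e.snd, _, Or.inr ⟨rfl, rfl⟩, Or.inl ⟨rfl, ?_⟩⟩
    simp

theorem wt_step {a b : Vt F r m} (h : (G F r m).Adj a b) {y : X} {n : ℕ} (hw : Wt a y n) :
    ∃ y' n', Wt b y' n' ∧ Nx F r y n y' n' := by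
  rw [G, SimpleGraph.fromRel_adj] at h
  rcases h.2 with h | h
  · exact wt_step1 h hw
  · exact wt_step2 h hw

theorem walk_wt {a b : Vt F r m} (p : (G F r m).Walk a b) {x : X} (hb : Wt b x 0) :
    ∃ (y : X) (n : ℕ), Wt a y n ∧ ∃ q : F.Walk y x,
      q.length * (2 * r + 3) + n ≤ p.length ∧
      (q.length * (2 * r + 3) + n) % 2 = p.length % 2 := by
  induction p with
  | nil => exact ⟨x, 0, hb, SimpleGraph.Walk.nil, by simp, by simp⟩
  | cons h p ih =>
    obtain ⟨y, n, hw, q, h1, h2⟩ := ih hb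
    obtain ⟨y', n', hw', hN⟩ := wt_step h.symm hw
    rcases hN with ⟨rfl, h3⟩ | ⟨h3, h4, h5⟩
    · refine ⟨y', n', hw', q, ?_, ?_⟩
      · rw [SimpleGraph.Walk.length_cons]; omega
      · rw [SimpleGraph.Walk.length_cons]; omega
    · refine ⟨y', n', hw', SimpleGraph.Walk.cons h3 q, ?_, ?_⟩
      · rw [SimpleGraph.Walk.length_cons, SimpleGraph.Walk.length_cons, add_mul]; omega
      · rw [SimpleGraph.Walk.length_cons, SimpleGraph.Walk.length_cons, add_mul]; omega

/-- the vertices of the set `S` -/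
def IsS (z : Vt F r m) : Prop :=
  match z with
  | Sum.inl (_, i, _) => i.val = 0
  | Sum.inr _ => False

/-- the parity of the pointer -/
def par (z : Vt F r m) : ℕ :=
  match z with
  | Sum.inl (_, i, _) => i.val
  | Sum.inr (_, j, _) => j.val

theorem par_step1 {a b : Vt F r m} (h : Rl F r m a b) (ha : ¬ IsS a) (hb : ¬ IsS b) :
    (par b) % 2 ≠ (par a) % 2 := by
  cases h with
  | loop x i w w' h =>
    have h1 := val_succ i
    have h2 : (i + 1).val ≠ 0 := hb
    simp only [par]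
    omega
  | out e w => exact absurd rfl ha
  | step e j hj u u' h =>
    simp only [par]
    omega
  | inn e w => exact absurd rfl hb

theorem par_walk {a b : Vt F r m} (p : (G F r m).Walk a b) (hp : ∀ z ∈ p.support, ¬ IsS z) :
    (par a + par b + p.length) % 2 = 0 := by
  induction p with
  | nil => simp only [SimpleGraph.Walk.length_nil]; omega
  | @cons u v w h p ih =>
    have h1 := ih (fun z hz => hp z (by simp [hz]))
    have h2 : ¬ IsS u := hp _ (by simp)
    have h3 : ¬ IsS v := hp _ (by simp)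
    have h4 : (par v) % 2 ≠ (par u) % 2 := by
      rw [G, SimpleGraph.fromRel_adj] at h
      rcases h.2 with h | h
      · exact par_step1 h h2 h3
      · exact (par_step1 h h3 h2).symm
    rw [SimpleGraph.Walk.length_cons]
    omega

theorem odd_girth {g : ℕ} (hg : ∀ (x : X) (p : F.Walk x x), Odd p.length → g ≤ p.length)
    (l : ℕ) (hl : Odd l) (hlt : l < (2 * r + 3) * g) : NoCyc (G F r m) l := by
  classical
  rintro ⟨v, p, -, hpl⟩
  by_cases hS : ∃ z ∈ p.support, IsS z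
  · obtain ⟨z, hz, hzS⟩ := hS
    have key : ∀ q : (G F r m).Walk z z, q.length = l → False := by
      intro q hq
      rcases z with ⟨x, i, w⟩ | z
      · have hi : i = 0 := Fin.ext hzS
        subst hi
        have hb : Wt (Sum.inl (x, 0, w) : Vt F r m) x 0 := ⟨rfl, by simp⟩
        obtain ⟨y, n, ⟨rfl, hn⟩, q', h1, h2⟩ := walk_wt q hb
        simp only [Fin.val_zero, zero_le, inf_of_le_left] at hn
        subst hn
        rw [hq] at h1 h2
        have h3 : Odd q'.length := by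
          rw [Nat.odd_iff] at hl ⊢
          rw [add_zero, Nat.mul_mod, show (2 * r + 3) % 2 = 1 by omega] at h2
          omega
        have h4 := hg _ q' h3
        have h5 : g * (2 * r + 3) ≤ q'.length * (2 * r + 3) := Nat.mul_le_mul_right _ h4
        have h6 : g * (2 * r + 3) = (2 * r + 3) * g := Nat.mul_comm _ _
        omega
      · exact hzS
    refine key ((p.dropUntil z hz).append (p.takeUntil z hz)) ?_
    rw [SimpleGraph.Walk.length_append, ← hpl]
    have := congrArg SimpleGraph.Walk.length (p.take_spec hz)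
    rw [SimpleGraph.Walk.length_append] at this
    omega
  · push Not at hS
    have h1 := par_walk p hS
    rw [Nat.odd_iff] at hl
    omega

/-! ### Distances -/

/-- from `w` to `w'` along the loop -/
theorem loop_walk (x : X) (w w' : Fin (2 * r + 2) → Fin m) (n : ℕ) :
    n ≤ 2 * r + 2 → ∀ i : Fin (2 * r + 2), i.val = n % (2 * r + 2) →
    ∃ p : (G F r m).Walk (Sum.inl (x, 0, w))
      (Sum.inl (x, i, fun k => if k.val < n then w' k else w k)),
      p.length = n := by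
  induction n with
  | zero =>
    intro _ i hi
    have hi0 : i = 0 := Fin.ext (by rw [hi]; simp)
    subst hi0
    refine ⟨(SimpleGraph.Walk.nil).copy rfl (by simp), by
      rw [SimpleGraph.Walk.length_copy, SimpleGraph.Walk.length_nil]⟩
  | succ n ih =>
    intro hn i hi
    have hnlt : n < 2 * r + 2 := by omega
    obtain ⟨p, hp⟩ := ih (by omega) ⟨n, hnlt⟩ (Nat.mod_eq_of_lt hnlt).symm
    have hi2 : (⟨n, hnlt⟩ : Fin (2 * r + 2)) + 1 = i := by
      apply Fin.ext
      rw [hi]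
      have h1 := val_succ (⟨n, hnlt⟩ : Fin (2 * r + 2))
      simp only at h1
      rcases h1 with h1 | h1
      · rw [h1.1, Nat.mod_eq_of_lt h1.2]
      · rw [h1.1, h1.2, Nat.mod_self]
    have h : Rl F r m (Sum.inl (x, ⟨n, hnlt⟩, fun k => if k.val < n then w' k else w k))
        (Sum.inl (x, ⟨n, hnlt⟩ + 1, fun k => if k.val < n + 1 then w' k else w k)) := by
      apply Rl.loop
      intro k hk
      have h1 : k.val ≠ n := by
        intro h
        apply hk
        exact Fin.ext h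
      by_cases h2 : k.val < n
      · rw [if_pos h2, if_pos (by omega)]
      · rw [if_neg h2, if_neg (by omega)]
    rw [hi2] at h
    refine ⟨p.concat (adj_of_rl h), ?_⟩
    rw [SimpleGraph.Walk.length_concat, hp]

theorem link_walk (e : F.Dart) (w w' : Fin (2 * r + 2) → Fin m) (n : ℕ) (hn : n < 2 * r + 2) :
    ∃ p : (G F r m).Walk (Sum.inl (e.fst, 0, w))
      (Sum.inr (e, ⟨n, hn⟩, fun k => if k.val < n then w' k.succ else w k.succ)),
      p.length = n + 1 := by
  induction n with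
  | zero =>
    refine ⟨(SimpleGraph.Walk.cons (adj_of_rl (Rl.out e w)) SimpleGraph.Walk.nil).copy rfl
      (by simp), by simp⟩
  | succ n ih =>
    obtain ⟨p, hp⟩ := ih (by omega)
    have h : Rl F r m
        (Sum.inr (e, ⟨n, by omega⟩, fun k => if k.val < n then w' k.succ else w k.succ))
        (Sum.inr (e, ⟨n + 1, hn⟩, fun k => if k.val < n + 1 then w' k.succ else w k.succ)) := by
      apply Rl.step
      intro k hk
      by_cases h2 : k.val < n
      · rw [if_pos h2, if_pos (by omega)]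
      · rw [if_neg h2, if_neg (by omega)]
    refine ⟨p.concat (adj_of_rl h), ?_⟩
    simp [hp]

theorem pw_same (x : X) (w w' : Fin (2 * r + 2) → Fin m) (h : w ≠ w') :
    (pw (G F r m) (2 * r + 3)).Adj (Sum.inl (x, 0, w)) (Sum.inl (x, 0, w')) := by
  rw [pw, SimpleGraph.fromRel_adj]
  refine ⟨by simp [h], Or.inl ?_⟩
  obtain ⟨p, hp⟩ := loop_walk (F := F) x w w' (2 * r + 2) le_rfl 0 (by
    rw [Nat.mod_self]; rfl)
  have h2 : (fun k : Fin (2 * r + 2) => if k.val < 2 * r + 2 then w' k else w k) = w' := by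
    funext k; rw [if_pos k.isLt]
  refine ⟨p.copy rfl (by rw [h2]), ?_⟩
  rw [SimpleGraph.Walk.length_copy]
  omega

theorem pw_adj {x x' : X} (hx : F.Adj x x') (w w' : Fin (2 * r + 2) → Fin m) :
    (pw (G F r m) (2 * r + 3)).Adj (Sum.inl (x, 0, w)) (Sum.inl (x', 0, w')) := by
  rw [pw, SimpleGraph.fromRel_adj]
  refine ⟨by simp [hx.ne], Or.inl ?_⟩
  obtain ⟨p, hp⟩ := link_walk ⟨(x, x'), hx⟩ w w' (2 * r + 1) (by omega)
  have h2 : (fun k : Fin (2 * r + 1) => if k.val < 2 * r + 1 then w' k.succ else w k.succ) =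
      fun k => w' k.succ := by
    funext k; rw [if_pos k.isLt]
  have h3 := adj_of_rl (Rl.inn (r := r) (⟨(x, x'), hx⟩ : F.Dart) w')
  refine ⟨(p.copy rfl (by rw [h2])).concat h3, ?_⟩
  rw [SimpleGraph.Walk.length_concat, SimpleGraph.Walk.length_copy, hp]

theorem t_C : S_C := by
  classical
  intro s X _ F m a g hm hd hg ha
  rcases s with _ | r
  · refine ⟨X, inferInstance, F, fun v => (hd v).trans (by omega), ?_, ?_⟩
    · rintro l hl hlt ⟨v, p, -, hp⟩
      have := hg v p (hp ▸ hl)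
      omega
    · intro k hk
      obtain ⟨φ⟩ := hk
      have h := count F a k ha (W := Unit) (fun x _ => φ x) (fun x w w' h => (h rfl).elim) (by
        intro x x' _ _ hx
        apply φ.valid
        rw [pw, SimpleGraph.fromRel_adj]
        exact ⟨hx.ne, Or.inl ⟨SimpleGraph.Walk.cons hx SimpleGraph.Walk.nil, by simp⟩⟩)
      simpa using h
  · have hfin : Fintype (Vt F r m) := inferInstance
    refine ⟨Vt F r m, hfin, G F r m, deg_le hd, ?_, ?_⟩
    · intro l hl hlt
      exact odd_girth hg l hl (by rw [show 2 * r + 3 = 2 * (r + 1) + 1 by ring]; exact hlt)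
    · intro k hk
      rw [show 2 * (r + 1) + 1 = 2 * r + 3 by ring] at hk
      obtain ⟨φ⟩ := hk
      have h := count F a k ha (W := Fin (2 * r + 2) → Fin m) (fun x w => φ (Sum.inl (x, 0, w)))
        (fun x w w' h => φ.valid (pw_same x w w' h))
        (fun x x' w w' h => φ.valid (pw_adj h w w'))
      rw [Fintype.card_fun, Fintype.card_fin, Fintype.card_fin] at h
      rw [show 2 * (r + 1) = 2 * r + 2 by ring]
      exact h

end Pool.Agent.TH444.DC.Comp
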