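import Pool.Agent.TH444.DC.Defs
import Pool.Agent.Helper635.LLL

set_option autoImplicit false

/-!
# Task F1: random partition
-/

namespace Pool.Agent.TH444.DC.Part

open Finset SimpleGraph
open Classical

set_option linter.unusedSectionVars false

/-- numerics -/
theorem choose_le (n r m : ℕ) (h : 6 * n ≤ m * r) : (n.choose r : ℝ) * 2 ^ r ≤ (m : ℝ) ^ r := by
  have h1 : (n.choose r : ℝ) ≤ (n : ℝ) ^ r / r.factorial := Nat.choose_le_pow_div r n
  have h2 : (n : ℝ) ≤ (m : ℝ) * r / 6 := by
    have : (6 * n : ℝ) ≤ m * r := by exact_mod_cast h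
    linarith
  have h3 : (r : ℝ) ^ r / r.factorial ≤ Real.exp r := Real.pow_div_factorial_le_exp (r : ℝ) (Nat.cast_nonneg _) r
  have h4 : Real.exp r ≤ 3 ^ r := by
    rw [← Real.exp_one_pow]
    exact pow_le_pow_left₀ (Real.exp_pos _).le (by
      have := Real.exp_one_lt_d9
      linarith) r
  have hf : (0 : ℝ) < r.factorial := by exact_mod_cast Nat.factorial_pos r
  calc (n.choose r : ℝ) * 2 ^ r ≤ ((n : ℝ) ^ r / r.factorial) * 2 ^ r := by gcongr
    _ ≤ ((m : ℝ) * r / 6) ^ r / r.factorial * 2 ^ r := by gcongr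
    _ = (m : ℝ) ^ r * ((r : ℝ) ^ r / r.factorial) * (2 ^ r / 6 ^ r) := by
        rw [div_pow, mul_pow]; ring
    _ ≤ (m : ℝ) ^ r * (3 ^ r) * (2 ^ r / 6 ^ r) := by
        gcongr
        exact h3.trans h4
    _ = (m : ℝ) ^ r := by
        rw [mul_assoc, ← div_pow, ← mul_pow]
        norm_num

variable {V : Type} [Fintype V]

theorem cnt_const (m : ℕ) (v : V) (U : Finset V) (hv : v ∉ U) :
    ((univ : Finset (V → Fin m)).filter (fun π => ∀ u ∈ U, π u = π v)).card * m ^ U.card ≤
      m ^ Fintype.card V := by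
  have h1 : ((univ : Finset (V → Fin m)).filter (fun π => ∀ u ∈ U, π u = π v)).card *
      m ^ U.card = (((univ : Finset (V → Fin m)).filter (fun π => ∀ u ∈ U, π u = π v)) ×ˢ
        (univ : Finset ({x // x ∈ U} → Fin m))).card := by
    rw [card_product, card_univ, Fintype.card_fun, Fintype.card_fin, Fintype.card_coe]
  have h2 : m ^ Fintype.card V = (univ : Finset (V → Fin m)).card := by
    rw [card_univ, Fintype.card_fun, Fintype.card_fin]
  rw [h1, h2]
  apply card_le_card_of_injOn
    (fun p : (V → Fin m) × ({x // x ∈ U} → Fin m) =>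
      fun x => if h : x ∈ U then p.2 ⟨x, h⟩ else p.1 x)
  · intro p _; simp
  · rintro ⟨π, f⟩ hp ⟨π', f'⟩ hp' heq
    simp only [coe_product, Set.mem_prod, mem_coe, mem_filter, mem_univ, true_and, and_true]
      at hp hp'
    simp only at heq
    have hout : ∀ x, x ∉ U → π x = π' x := by
      intro x hx
      have := congrFun heq x
      simpa [hx] using this
    have hf : f = f' := by
      funext x
      have := congrFun heq x.1
      simpa [x.2] using this
    have hπ : π = π' := by
      funext x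
      by_cases hx : x ∈ U
      · rw [hp x hx, hp' x hx]; exact hout v hv
      · exact hout x hx
    rw [hf, hπ]

/-- the vertices of a set of pairs -/
noncomputable def VS (M : Finset (V × V)) : Finset V := M.image Prod.fst ∪ M.image Prod.snd

theorem card_VS_le (M : Finset (V × V)) : (VS M).card ≤ 2 * M.card := by
  have h1 := card_union_le (M.image Prod.fst) (M.image Prod.snd)
  have h2 : (M.image Prod.fst).card ≤ M.card := card_image_le
  have h3 : (M.image Prod.snd).card ≤ M.card := card_image_le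
  unfold VS
  omega

theorem VS_union (M N : Finset (V × V)) : VS (M ∪ N) = VS M ∪ VS N := by
  unfold VS
  rw [image_union, image_union]
  ext x
  simp only [mem_union]
  tauto

theorem VS_sub {M N : Finset (V × V)} (h : M ⊆ N) (hN : (VS N).card = 2 * N.card) :
    (VS M).card = 2 * M.card := by
  have h1 : N = M ∪ (N \ M) := (union_sdiff_of_subset h).symm
  have h2 := card_VS_le M
  have h3 := card_VS_le (N \ M)
  have h4 : (VS N).card ≤ (VS M).card + (VS (N \ M)).card := by
    conv_lhs => rw [h1, VS_union]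
    exact card_union_le _ _
  have h5 := card_sdiff_add_card_eq_card h
  omega

/-- a union bound over a family of subsets -/
theorem union_bound {m : ℕ} (hm : 1 ≤ m) (v : V) {α : Type} (𝓕 : Finset α) (U : α → Finset V)
    (u N c : ℕ) (hu : ∀ a ∈ 𝓕, (U a).card = u) (hv : ∀ a ∈ 𝓕, v ∉ U a) (hF : 𝓕.card ≤ N)
    (hN : (N : ℝ) * 2 ^ c ≤ (m : ℝ) ^ u) :
    (((univ : Finset (V → Fin m)).filter (fun π => ∃ a ∈ 𝓕, ∀ x ∈ U a, π x = π v)).card : ℝ) *
      2 ^ c ≤ (m : ℝ) ^ Fintype.card V := by
  have hsub : (univ : Finset (V → Fin m)).filter (fun π => ∃ a ∈ 𝓕, ∀ x ∈ U a, π x = π v) ⊆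
      𝓕.biUnion (fun a => (univ : Finset (V → Fin m)).filter (fun π => ∀ x ∈ U a, π x = π v)) := by
    intro π hπ
    obtain ⟨-, a, ha, h⟩ := mem_filter.1 hπ
    exact mem_biUnion.2 ⟨a, ha, mem_filter.2 ⟨mem_univ _, h⟩⟩
  have hm0 : (0 : ℝ) < (m : ℝ) ^ u := by
    have : (0 : ℝ) < m := by exact_mod_cast hm
    positivity
  have h1 : (((univ : Finset (V → Fin m)).filter
      (fun π => ∃ a ∈ 𝓕, ∀ x ∈ U a, π x = π v)).card : ℝ) ≤
      ∑ a ∈ 𝓕, (((univ : Finset (V → Fin m)).filter (fun π => ∀ x ∈ U a, π x = π v)).card : ℝ) := by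
    exact_mod_cast (card_le_card hsub).trans card_biUnion_le
  have h2 : ∑ a ∈ 𝓕, (((univ : Finset (V → Fin m)).filter
      (fun π => ∀ x ∈ U a, π x = π v)).card : ℝ) ≤ 𝓕.card * ((m : ℝ) ^ Fintype.card V / m ^ u) := by
    rw [← nsmul_eq_mul]
    apply sum_le_card_nsmul
    intro a ha
    rw [le_div_iff₀ hm0]
    have := cnt_const m v (U a) (hv a ha)
    rw [hu a ha] at this
    exact_mod_cast this
  have h3 : (𝓕.card : ℝ) ≤ N := by exact_mod_cast hF
  have h4 : (0 : ℝ) ≤ (m : ℝ) ^ Fintype.card V / m ^ u := by positivity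
  calc _ ≤ (𝓕.card * ((m : ℝ) ^ Fintype.card V / m ^ u)) * 2 ^ c := by
        gcongr
        exact h1.trans h2
    _ ≤ (N * ((m : ℝ) ^ Fintype.card V / m ^ u)) * 2 ^ c := by gcongr
    _ = (N * 2 ^ c) * ((m : ℝ) ^ Fintype.card V / m ^ u) := by ring
    _ ≤ (m : ℝ) ^ u * ((m : ℝ) ^ Fintype.card V / m ^ u) := by gcongr
    _ = (m : ℝ) ^ Fintype.card V := by field_simp

variable (H : SimpleGraph V)

noncomputable def Nb (v : V) : Finset V := univ.filter (fun u => H.Adj v u)

noncomputable def EP (v : V) : Finset (V × V) :=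
  univ.filter (fun q => H.Adj v q.1 ∧ H.Adj v q.2 ∧ H.Adj q.1 q.2)

def BA (m r : ℕ) (v : V) (π : V → Fin m) : Prop :=
  ∃ U ∈ (Nb H v).powersetCard r, ∀ u ∈ U, π u = π v

def BM (m s : ℕ) (v : V) (π : V → Fin m) : Prop :=
  ∃ M ∈ ((EP H v).powersetCard s).filter (fun M => (VS M).card = 2 * s), ∀ u ∈ VS M, π u = π v

variable {H}

theorem mem_Nb {v u : V} : u ∈ Nb H v ↔ H.Adj v u := by simp [Nb]

theorem VS_EP {v : V} {M : Finset (V × V)} (hM : M ⊆ EP H v) : VS M ⊆ Nb H v := by
  intro x hx
  unfold VS at hx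
  rw [mem_union, mem_image, mem_image] at hx
  rw [mem_Nb]
  rcases hx with ⟨q, hq, rfl⟩ | ⟨q, hq, rfl⟩
  · exact (mem_filter.1 (hM hq)).2.1
  · exact (mem_filter.1 (hM hq)).2.2.1

open Pool.Agent.Helper635.LLL in
theorem t_F1 : S_F1 := by
  intro V _ H D E m r s hD hE hm h1 h2 h3 h4
  have hNb : ∀ v, (Nb H v).card ≤ D := by
    intro v
    refine le_trans (le_of_eq ?_) (hD v)
    rw [← Set.ncard_coe_finset]
    congr 1
    ext w
    simp [mem_Nb]
  have hEP : ∀ v, (EP H v).card ≤ E := by
    intro v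
    refine le_trans (le_of_eq ?_) (hE v)
    rw [← Set.ncard_coe_finset]
    congr 1
    ext w
    simp [EP]
  have hvNb : ∀ v, v ∉ Nb H v := fun v h => (mem_Nb.1 h).ne rfl
  have hDpos : (0 : ℝ) < (16 * (D + 1) ^ 2 : ℝ) := by positivity
  have hcardfun : ((Fintype.card (V → Fin m) : ℕ) : ℝ) = (m : ℝ) ^ Fintype.card V := by
    rw [Fintype.card_fun, Fintype.card_fin]; push_cast; rfl
  -- the two probabilities
  have hA : ∀ v, ((cnt (BA H m r v) : ℕ) : ℝ) * (16 * (D + 1) ^ 2) ≤ (m : ℝ) ^ Fintype.card V := by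
    intro v
    have h5 := union_bound hm v ((Nb H v).powersetCard r) (fun U => U) r (D.choose r) r
      (fun U hU => (mem_powersetCard.1 hU).2) (fun U hU h => hvNb v ((mem_powersetCard.1 hU).1 h))
      (by rw [card_powersetCard]; exact Nat.choose_le_choose r (hNb v)) (choose_le D r m h1)
    have h6 : ((16 * (D + 1) ^ 2 : ℕ) : ℝ) ≤ ((2 ^ r : ℕ) : ℝ) := by exact_mod_cast h3
    push_cast at h6
    have h7 : ((cnt (BA H m r v) : ℕ) : ℝ) = (((univ : Finset (V → Fin m)).filter
        (fun π => ∃ a ∈ (Nb H v).powersetCard r, ∀ x ∈ a, π x = π v)).card : ℝ) := by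
      rw [cnt]
      congr 1
      congr 1
      ext π
      rw [mem_ev, mem_filter]
      simp [BA]
    rw [h7]
    refine le_trans ?_ h5
    gcongr
  have hM : ∀ v, ((cnt (BM H m s v) : ℕ) : ℝ) * (16 * (D + 1) ^ 2) ≤ (m : ℝ) ^ Fintype.card V := by
    intro v
    have h5 := union_bound hm v (((EP H v).powersetCard s).filter (fun M => (VS M).card = 2 * s))
      (fun M => VS M) (2 * s) (E.choose s) s
      (fun M hM => (mem_filter.1 hM).2)
      (fun M hM h => hvNb v (VS_EP (mem_powersetCard.1 (mem_filter.1 hM).1).1 h))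
      ((card_le_card (filter_subset _ _)).trans (by
        rw [card_powersetCard]; exact Nat.choose_le_choose s (hEP v)))
      (by
        have := choose_le E s (m ^ 2) h2
        rw [pow_mul]
        push_cast at this
        exact this)
    have h6 : ((16 * (D + 1) ^ 2 : ℕ) : ℝ) ≤ ((2 ^ s : ℕ) : ℝ) := by exact_mod_cast h4
    push_cast at h6
    have h7 : ((cnt (BM H m s v) : ℕ) : ℝ) = (((univ : Finset (V → Fin m)).filter
        (fun π => ∃ M ∈ ((EP H v).powersetCard s).filter (fun M => (VS M).card = 2 * s),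
          ∀ x ∈ VS M, π x = π v)).card : ℝ) := by
      rw [cnt]
      congr 1
      congr 1
      ext π
      rw [mem_ev, mem_filter]
      simp [BM]
    rw [h7]
    refine le_trans ?_ h5
    gcongr
  -- the local lemma
  obtain ⟨π, hπ⟩ := lll (T := V) (C := Fin m) (univ : Finset V)
    (fun v π => BA H m r v π ∨ BM H m s v π) (fun v => insert v (Nb H v))
    (by
      intro v _ ω ω' hω h
      rcases h with ⟨U, hU, h⟩ | ⟨M, hM, h⟩
      · left
        refine ⟨U, hU, fun u hu => ?_⟩
        rw [← hω u (mem_insert_of_mem ((mem_powersetCard.1 hU).1 hu)), ← hω v (mem_insert_self _ _)]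
        exact h u hu
      · right
        refine ⟨M, hM, fun u hu => ?_⟩
        rw [← hω u (mem_insert_of_mem (VS_EP (mem_powersetCard.1 (mem_filter.1 hM).1).1 hu)),
          ← hω v (mem_insert_self _ _)]
        exact h u hu)
    (1 / (8 * (D + 1) ^ 2)) ((D + 1) ^ 2) (by positivity)
    (by
      intro v _
      have h5 : cnt (fun π : V → Fin m => BA H m r v π ∨ BM H m s v π) ≤
          cnt (BA H m r v) + cnt (BM H m s v) := by
        refine le_trans (card_le_card ?_) (card_union_le _ _)
        intro π hπ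
        rw [mem_ev] at hπ
        rw [mem_union, mem_ev, mem_ev]
        exact hπ
      have h6 : ((cnt (fun π : V → Fin m => BA H m r v π ∨ BM H m s v π) : ℕ) : ℝ) ≤
          (cnt (BA H m r v) : ℝ) + (cnt (BM H m s v) : ℝ) := by exact_mod_cast h5
      rw [hcardfun]
      have h7 := hA v
      have h8 := hM v
      have h9 : (0 : ℝ) < 8 * (D + 1) ^ 2 := by positivity
      rw [div_mul_eq_mul_div, one_mul, le_div_iff₀ h9]
      nlinarith)
    (by
      intro v _
      have hsub : (univ : Finset V).filter (fun j => ¬ Disjoint (insert v (Nb H v))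
          (insert j (Nb H j))) ⊆ (insert v (Nb H v)).biUnion (fun w => insert w (Nb H w)) := by
        intro j hj
        have hj' := (mem_filter.1 hj).2
        rw [not_disjoint_iff] at hj'
        obtain ⟨w, hw1, hw2⟩ := hj'
        rw [mem_biUnion]
        refine ⟨w, hw1, ?_⟩
        rw [mem_insert] at hw2 ⊢
        rcases hw2 with rfl | hw2
        · left; rfl
        · right; rw [mem_Nb] at hw2 ⊢; exact hw2.symm
      refine (card_le_card hsub).trans ?_
      have h5 : ∀ w, (insert w (Nb H w)).card ≤ D + 1 := fun w =>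
        (card_insert_le _ _).trans (Nat.add_le_add_right (hNb w) 1)
      refine (card_biUnion_le_card_mul _ _ (D + 1) (fun w _ => h5 w)).trans ?_
      rw [sq]
      exact Nat.mul_le_mul_right _ (h5 v))
    (by
      push_cast
      have h9 : (0 : ℝ) < (D + 1) ^ 2 := by positivity
      rw [show 4 * (1 / (8 * ((D : ℝ) + 1) ^ 2)) * ((D : ℝ) + 1) ^ 2 = 1 / 2 by
        field_simp; norm_num]
      norm_num)
    (Nat.one_le_pow _ _ (by omega))
    (by
      have : Nonempty (V → Fin m) := ⟨fun _ => ⟨0, hm⟩⟩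
      exact Fintype.card_pos)
  refine ⟨π, fun v => ?_⟩
  have hv := hπ v (mem_univ _)
  rw [not_or] at hv
  obtain ⟨hvA, hvM⟩ := hv
  constructor
  · by_contra hcon
    rw [not_le] at hcon
    have h5 : {u : V | H.Adj v u ∧ π u = π v}.ncard =
        ((Nb H v).filter (fun u => π u = π v)).card := by
      rw [← Set.ncard_coe_finset]
      congr 1
      ext w
      simp [mem_Nb]
    rw [h5] at hcon
    obtain ⟨U, hU, hUc⟩ := exists_subset_card_eq hcon.le
    exact hvA ⟨U, mem_powersetCard.2 ⟨hU.trans (filter_subset _ _), hUc⟩,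
      fun u hu => (mem_filter.1 (hU hu)).2⟩
  · -- maximal matching
    let EQ : Finset (V × V) := (EP H v).filter (fun q => π q.1 = π v ∧ π q.2 = π v)
    let cand : Finset (Finset (V × V)) := EQ.powerset.filter (fun M => (VS M).card = 2 * M.card)
    have hcand : cand.Nonempty := ⟨∅, mem_filter.2 ⟨empty_mem_powerset _, by simp [VS]⟩⟩
    obtain ⟨M, hMc, hMmax⟩ := exists_max_image cand card hcand
    obtain ⟨hMEQ, hMVS⟩ := mem_filter.1 hMc
    rw [mem_powerset] at hMEQ
    have hMs : M.card < s := by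
      by_contra hcon
      rw [not_lt] at hcon
      obtain ⟨M', hM', hM'c⟩ := exists_subset_card_eq hcon
      have h5 := VS_sub hM' hMVS
      rw [hM'c] at h5
      apply hvM
      refine ⟨M', mem_filter.2 ⟨mem_powersetCard.2 ⟨(hM'.trans hMEQ).trans (filter_subset _ _),
        hM'c⟩, h5⟩, ?_⟩
      intro u hu
      unfold VS at hu
      rw [mem_union, mem_image, mem_image] at hu
      rcases hu with ⟨q, hq, rfl⟩ | ⟨q, hq, rfl⟩
      · exact (mem_filter.1 (hMEQ (hM' hq))).2.1
      · exact (mem_filter.1 (hMEQ (hM' hq))).2.2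
    refine ⟨(VS M : Set V), ?_, ?_⟩
    · rw [Set.ncard_coe_finset]
      have := card_VS_le M
      omega
    · intro x y hx hy hpx hpy hxy
      by_contra hcon
      rw [not_or, mem_coe, mem_coe] at hcon
      have hnot : (x, y) ∉ M := by
        intro h
        apply hcon.1
        unfold VS
        exact mem_union_left _ (mem_image.2 ⟨(x, y), h, rfl⟩)
      have h5 : VS (insert (x, y) M) = insert x (insert y (VS M)) := by
        unfold VS
        rw [image_insert, image_insert]
        ext z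
        simp only [mem_union, mem_insert]
        tauto
      have h6 : (VS (insert (x, y) M)).card = 2 * (insert (x, y) M).card := by
        rw [h5, card_insert_of_notMem, card_insert_of_notMem hcon.2, card_insert_of_notMem hnot,
          hMVS]
        · ring
        · rw [mem_insert, not_or]
          exact ⟨hxy.ne, hcon.1⟩
      have h7 : insert (x, y) M ∈ cand := by
        refine mem_filter.2 ⟨mem_powerset.2 ?_, h6⟩
        apply insert_subset _ hMEQ
        exact mem_filter.2 ⟨mem_filter.2 ⟨mem_univ _, hx, hy, hxy⟩, hpx, hpy⟩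
      have h8 := hMmax _ h7
      rw [card_insert_of_notMem hnot] at h8
      omega

end Pool.Agent.TH444.DC.Part
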