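import Pool.Agent.TH444.DC.Up
import Pool.Agent.TH444.DC.Comp2
import Pool.Agent.TH444.DC.Part
import Pool.Agent.TH620.J34
import Pool.Agent.TH620.J36

set_option autoImplicit false

/-!
# Assembly: the threshold for an odd excluded cycle length is three times the distance
-/

namespace Pool.Agent.TH444.DC.Asm

open SimpleGraph Pool.Agent.TH444.DC

/-- transport of a graph to `Fin n` -/
theorem transport {V : Type} [Fintype V] (G : SimpleGraph V) (t : ℕ) :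
    ∃ n : ℕ, ∃ G' : SimpleGraph (Fin n),
      (∀ d : ℕ, (∀ v, (G.neighborSet v).ncard ≤ d) → ∀ v, (G'.neighborSet v).ncard ≤ d) ∧
      (∀ l, NoCyc G l → NoCyc G' l) ∧
      (∀ k, (pw G' t).Colorable k → (pw G t).Colorable k) := by
  let e := Fintype.equivFin V
  let G' : SimpleGraph (Fin (Fintype.card V)) := G.comap e.symm
  have hadj : ∀ x y, G'.Adj x y ↔ G.Adj (e.symm x) (e.symm y) := fun _ _ => Iff.rfl
  let φ : G' →g G := ⟨e.symm, fun {a b} h => (hadj a b).1 h⟩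
  let ψ : G →g G' := ⟨e, fun {a b} h => by
    rw [hadj, Equiv.symm_apply_apply, Equiv.symm_apply_apply]; exact h⟩
  refine ⟨Fintype.card V, G', ?_, ?_, ?_⟩
  · intro d hd v
    refine le_trans (le_of_eq ?_) (hd (e.symm v))
    rw [← Set.ncard_image_of_injective (G'.neighborSet v) e.symm.injective]
    congr 1
    ext y
    simp only [Set.mem_image, SimpleGraph.mem_neighborSet, hadj]
    constructor
    · rintro ⟨x, hx, rfl⟩; exact hx
    · intro h; exact ⟨e y, by simpa using h, by simp⟩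
  · rintro l hl ⟨v, p, hp, hlen⟩
    refine hl ⟨φ v, p.map φ, ?_, ?_⟩
    · exact (SimpleGraph.Walk.isCycle_map_iff_of_injective e.symm.injective).2 hp
    · rw [SimpleGraph.Walk.length_map, hlen]
  · rintro k ⟨C⟩
    refine ⟨Coloring.mk (fun v => C (e v)) ?_⟩
    intro u v huv
    apply C.valid
    rw [pw, SimpleGraph.fromRel_adj] at huv ⊢
    refine ⟨fun h => huv.1 (e.injective h), ?_⟩
    rcases huv.2 with ⟨p, hp⟩ | ⟨p, hp⟩
    · exact Or.inl ⟨p.map ψ, by rw [SimpleGraph.Walk.length_map]; exact hp⟩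
    · exact Or.inr ⟨p.map ψ, by rw [SimpleGraph.Walk.length_map]; exact hp⟩

/-- `d / 4` is at least `d / 8` -/
theorem m_ge {d : ℕ} (hd : 8 ≤ d) : (d : ℝ) / 8 ≤ ((d / 4 : ℕ) : ℝ) := by
  have h : d ≤ 8 * (d / 4) := by omega
  have : (d : ℝ) ≤ 8 * ((d / 4 : ℕ) : ℝ) := by exact_mod_cast h
  linarith

/-- (I) -/
theorem lower_short (s : ℕ) (l : ℕ) (hl : Odd l) (hlt : l < 3 * (2 * s + 1)) :
    ∃ c : ℝ, 0 < c ∧ ∃ D : ℕ, ∀ d : ℕ, D ≤ d →
      ∃ n : ℕ, ∃ G : SimpleGraph (Fin n),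
        (∀ v, (G.neighborSet v).ncard ≤ d) ∧ NoCyc G l ∧
        ∀ k : ℕ, (k : ℝ) < c * (d : ℝ) ^ (2 * s + 1) → ¬ (pw G (2 * s + 1)).Colorable k := by
  refine ⟨(1 / 8) ^ (2 * s + 1), by positivity, 8, fun d hd => ?_⟩
  have hm1 : 1 ≤ d / 4 := by omega
  obtain ⟨V, _, G, hG1, hG2, hG3⟩ := Comp.t_C s (Fin (d / 4)) (⊤ : SimpleGraph (Fin (d / 4)))
    (d / 4) 1 3 hm1 (by
      intro x
      calc _ ≤ (Set.univ : Set (Fin (d / 4))).ncard :=
            Set.ncard_le_ncard (Set.subset_univ _) (Set.toFinite _)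
        _ = d / 4 := by rw [Set.ncard_univ]; simp) (by
      intro x p hp
      by_contra hcon
      push Not at hcon
      have h1 : p.length = 1 := by
        obtain ⟨q, hq⟩ := hp
        omega
      exact (SimpleGraph.Walk.adj_of_length_eq_one h1).ne rfl) (by
      intro A hA
      rw [Finset.card_le_one]
      intro x hx y hy
      by_contra hne
      exact hA x hx y hy ((SimpleGraph.top_adj x y).2 hne))
  obtain ⟨n, G', h1, h2, h3⟩ := transport G (2 * s + 1)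
  refine ⟨n, G', h1 d (fun v => (hG1 v).trans (by omega)), h2 l (hG2 l hl (by omega)), ?_⟩
  intro k hk hcol
  have h4 := hG3 k (h3 k hcol)
  rw [Fintype.card_fin, mul_one] at h4
  have h5 : ((d / 4 : ℕ) : ℝ) ^ (2 * s + 1) ≤ k := by
    have : (d / 4) ^ (2 * s + 1) ≤ k := by rw [pow_succ']; exact h4
    exact_mod_cast this
  have h6 : ((d : ℝ) / 8) ^ (2 * s + 1) ≤ ((d / 4 : ℕ) : ℝ) ^ (2 * s + 1) :=
    pow_le_pow_left₀ (by positivity) (m_ge hd) _
  have h7 : ((1 : ℝ) / 8) ^ (2 * s + 1) * (d : ℝ) ^ (2 * s + 1) = ((d : ℝ) / 8) ^ (2 * s + 1) := by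
    rw [← mul_pow]; congr 1; ring
  rw [h7] at hk
  linarith

/-- (II) -/
theorem upper_short (t : ℕ) : ∃ C : ℝ, 0 < C ∧ ∃ D : ℕ, ∀ d : ℕ, D ≤ d →
    ∀ n : ℕ, ∀ G : SimpleGraph (Fin n), (∀ v, (G.neighborSet v).ncard ≤ d) →
      (pw G t).Colorable ⌊C * (d : ℝ) ^ t⌋₊ := by
  refine ⟨(t + 2 : ℕ), by positivity, 1, fun d hd n G hG => ?_⟩
  have h1 := Up.greedy (pw G t) ((t + 1) * d ^ t) (fun v => Up.deg_pw hG hd t v)
  refine h1.mono ?_
  apply Nat.le_floor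
  have h2 : (t + 1) * d ^ t + 1 ≤ (t + 2) * d ^ t := by
    have : 1 ≤ d ^ t := Nat.one_le_pow _ _ hd
    nlinarith
  exact_mod_cast h2

/-- (III) -/
theorem lower_long (hD : S_D) (s : ℕ) (l : ℕ) (hl : Odd l) :
    ∃ c : ℝ, 0 < c ∧ ∃ D : ℕ, ∀ d : ℕ, D ≤ d →
      ∃ n : ℕ, ∃ G : SimpleGraph (Fin n),
        (∀ v, (G.neighborSet v).ncard ≤ d) ∧ NoCyc G l ∧
        ∀ k : ℕ, (k : ℝ) < c * (d : ℝ) ^ (2 * s + 1) / Real.log (d : ℝ) →
          ¬ (pw G (2 * s + 1)).Colorable k := by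
  obtain ⟨c, hc, M, hM⟩ := hD (l + 1)
  refine ⟨c * (1 / 8) ^ (2 * s + 1), by positivity, 4 * M + 8, fun d hd => ?_⟩
  have hm1 : 1 ≤ d / 4 := by omega
  obtain ⟨X, _, F, a, hF1, hF2, hF3, hF4, hF5⟩ := hM (d / 4) (by omega)
  have ha1 : 1 ≤ a := by
    obtain ⟨x⟩ := Fintype.card_pos_iff.1 hF4
    have := hF3 {x} (by
      intro y hy z hz
      rw [Finset.mem_singleton] at hy hz
      rw [hy, hz]
      exact fun h => h.ne rfl)
    simpa using this
  obtain ⟨V, _, G, hG1, hG2, hG3⟩ := Comp.t_C s X F (d / 4) a (l + 1) hm1 hF1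
    (Pool.Agent.TH620.J36.t_W X F (l + 1) hF2) hF3
  obtain ⟨n, G', h1, h2, h3⟩ := transport G (2 * s + 1)
  refine ⟨n, G', h1 d (fun v => (hG1 v).trans (by omega)), h2 l (hG2 l hl (by nlinarith)), ?_⟩
  intro k hk hcol
  have h4 := hG3 k (h3 k hcol)
  have hm0 : (0 : ℝ) < ((d / 4 : ℕ) : ℝ) := by exact_mod_cast hm1
  have hmd : ((d / 4 : ℕ) : ℝ) ≤ d := by
    have : d / 4 ≤ d := Nat.div_le_self _ _
    exact_mod_cast this
  have hd1 : (1 : ℝ) < d := by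
    have : 1 < d := by omega
    exact_mod_cast this
  have hlog : 0 < Real.log d := Real.log_pos hd1
  have hlogm : Real.log ((d / 4 : ℕ) : ℝ) ≤ Real.log d := Real.log_le_log hm0 hmd
  have h5 : (Fintype.card X : ℝ) * ((d / 4 : ℕ) : ℝ) ^ (2 * s) ≤ k * a := by exact_mod_cast h4
  rw [lt_div_iff₀ hlog] at hk
  have ha0 : (0 : ℝ) < a := by exact_mod_cast ha1
  have h6 : (c * ((d / 4 : ℕ) : ℝ) ^ (2 * s + 1)) * a ≤ (k * Real.log d) * a := by
    calc (c * ((d / 4 : ℕ) : ℝ) ^ (2 * s + 1)) * a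
        = (c * ((d / 4 : ℕ) : ℝ) * a) * ((d / 4 : ℕ) : ℝ) ^ (2 * s) := by ring
      _ ≤ (Fintype.card X * Real.log ((d / 4 : ℕ) : ℝ)) * ((d / 4 : ℕ) : ℝ) ^ (2 * s) :=
          mul_le_mul_of_nonneg_right hF5 (by positivity)
      _ ≤ (Fintype.card X * Real.log d) * ((d / 4 : ℕ) : ℝ) ^ (2 * s) :=
          mul_le_mul_of_nonneg_right (mul_le_mul_of_nonneg_left hlogm (by positivity))
            (by positivity)
      _ = (Fintype.card X * ((d / 4 : ℕ) : ℝ) ^ (2 * s)) * Real.log d := by ring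
      _ ≤ (k * a) * Real.log d := mul_le_mul_of_nonneg_right h5 hlog.le
      _ = _ := by ring
  have h7 : c * ((d / 4 : ℕ) : ℝ) ^ (2 * s + 1) ≤ k * Real.log d :=
    le_of_mul_le_mul_right h6 ha0
  have h8 : ((d : ℝ) / 8) ^ (2 * s + 1) ≤ ((d / 4 : ℕ) : ℝ) ^ (2 * s + 1) :=
    pow_le_pow_left₀ (by positivity) (m_ge (by omega)) _
  have h9 : c * (1 / 8) ^ (2 * s + 1) * (d : ℝ) ^ (2 * s + 1) = c * ((d : ℝ) / 8) ^ (2 * s + 1) := by
    rw [mul_assoc, ← mul_pow]; congr 2; ring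
  rw [h9] at hk
  have := mul_le_mul_of_nonneg_left h8 hc.le
  linarith

/-- growth -/
theorem growth (A B : ℕ) : ∃ N : ℕ, ∀ s : ℕ, N ≤ s → A * s ^ B ≤ 2 ^ s := by
  have h := tendsto_pow_const_div_const_pow_of_one_lt B (show (1 : ℝ) < 2 by norm_num)
  have hA : (0 : ℝ) < 1 / (A + 1) := by positivity
  obtain ⟨N, hN⟩ := Filter.eventually_atTop.1 ((tendsto_order.1 h).2 _ hA)
  refine ⟨N, fun s hs => ?_⟩
  have h1 := hN s hs
  rw [div_lt_div_iff₀ (by positivity) (by positivity), one_mul] at h1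
  have h2 : s ^ B * (A + 1) < 2 ^ s := by exact_mod_cast h1
  nlinarith [Nat.zero_le (s ^ B)]

/-- (IV) -/
theorem upper_long (t j : ℕ) (ht : 1 ≤ t) : ∃ C : ℝ, 0 < C ∧ ∃ D : ℕ, ∀ d : ℕ, D ≤ d →
    ∀ n : ℕ, ∀ G : SimpleGraph (Fin n), (∀ v, (G.neighborSet v).ncard ≤ d) →
      NoCyc G (3 * t + 2 * j) →
      (pw G t).Colorable ⌊C * (d : ℝ) ^ t / Real.log (d : ℝ)⌋₊ := by
  obtain ⟨K, hK⟩ := Few.t_E t j ht
  obtain ⟨D0, hD0⟩ := Pool.Agent.TH620.J34.t_F2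
  obtain ⟨N, hN⟩ := growth (16 * (t + 2) ^ 2 * 27 ^ (2 * t)) (8 * t)
  set Q := K + 3 * (t * (t + 1)) with hQ
  set S := N + D0 + 18 * Q + 2 with hS
  refine ⟨288 * (t + 1) + 36, by positivity, (S ^ 2) ^ 2, fun d hd n G hG hcyc => ?_⟩
  set s0 := Nat.sqrt d with hs0
  set s := Nat.sqrt s0 with hs
  have e1 : s0 ^ 2 ≤ d := by rw [hs0, pow_two]; exact Nat.sqrt_le d
  have e2 : d < (s0 + 1) ^ 2 := by rw [hs0, pow_two]; exact Nat.lt_succ_sqrt d
  have e3 : s ^ 2 ≤ s0 := by rw [hs, pow_two]; exact Nat.sqrt_le s0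
  have e4 : s0 < (s + 1) ^ 2 := by rw [hs, pow_two]; exact Nat.lt_succ_sqrt s0
  have e5 : S ^ 2 ≤ s0 := by rw [hs0, Nat.le_sqrt, ← pow_two]; exact hd
  have e6 : S ≤ s := by rw [hs, Nat.le_sqrt, ← pow_two]; exact e5
  have hs1 : 2 ≤ s := by omega
  have hss0 : s ≤ s0 := by nlinarith
  have e7 : d ≤ 3 * s0 ^ 2 := by nlinarith
  have e8 : s0 ≤ 3 * s ^ 2 := by nlinarith
  have e9 : d ≤ 27 * s ^ 4 := by
    calc d ≤ 3 * s0 ^ 2 := e7
      _ ≤ 3 * (3 * s ^ 2) ^ 2 := Nat.mul_le_mul_left _ (Nat.pow_le_pow_left e8 2)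
      _ = _ := by ring
  have hd1 : 1 ≤ d := by nlinarith
  set r := 18 * (t + 1) * s0 with hr
  set m := d ^ (t - 1) * s0 with hm
  have hpt : d ^ (t - 1) * d = d ^ t := by rw [← pow_succ]; congr 1; omega
  have hrs : s ≤ r := by rw [hr]; nlinarith [Nat.zero_le (t * s0)]
  have hrs0 : s0 + 1 ≤ r := by rw [hr]; nlinarith [Nat.zero_le (t * s0)]
  set D1 := (t + 1) * d ^ t with hD1
  have hbig : 16 * (D1 + 1) ^ 2 ≤ 2 ^ s := by
    have h1 : D1 + 1 ≤ (t + 2) * d ^ t := by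
      have : 1 ≤ d ^ t := Nat.one_le_pow _ _ hd1
      rw [hD1]; nlinarith
    calc 16 * (D1 + 1) ^ 2 ≤ 16 * ((t + 2) * d ^ t) ^ 2 :=
          Nat.mul_le_mul_left _ (Nat.pow_le_pow_left h1 2)
      _ = 16 * (t + 2) ^ 2 * d ^ (2 * t) := by ring
      _ ≤ 16 * (t + 2) ^ 2 * (27 * s ^ 4) ^ (2 * t) :=
          Nat.mul_le_mul_left _ (Nat.pow_le_pow_left e9 _)
      _ = 16 * (t + 2) ^ 2 * 27 ^ (2 * t) * s ^ (8 * t) := by
          rw [mul_pow, ← pow_mul, show 4 * (2 * t) = 8 * t by ring]; ring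
      _ ≤ 2 ^ s := hN s (by omega)
  have hlogd : 0 < Real.log d := Real.log_pos (by
    have : 1 < d := by nlinarith
    exact_mod_cast this)
  have hrd : (d : ℝ) ≤ (r : ℝ) ^ 2 := by
    have : d ≤ r ^ 2 := by
      calc d ≤ (s0 + 1) ^ 2 := e2.le
        _ ≤ r ^ 2 := Nat.pow_le_pow_left hrs0 2
    exact_mod_cast this
  have hr0 : (0 : ℝ) < r := by
    have : 0 < r := by omega
    exact_mod_cast this
  have hlogr : Real.log d ≤ 2 * Real.log r := by
    have h1 := Real.log_le_log (by exact_mod_cast hd1) hrd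
    rw [Real.log_pow] at h1
    exact_mod_cast h1
  have hlogr0 : 0 < Real.log r := by linarith
  set k := ⌈8 * (r : ℝ) / Real.log r⌉₊ + 8 * s with hk
  have hk1 : 8 * (r : ℝ) ≤ k * Real.log r := by
    have h1 : 8 * (r : ℝ) / Real.log r ≤ k := by
      calc 8 * (r : ℝ) / Real.log r ≤ (⌈8 * (r : ℝ) / Real.log r⌉₊ : ℝ) := Nat.le_ceil _
        _ ≤ k := by
          have : ⌈8 * (r : ℝ) / Real.log r⌉₊ ≤ k := by rw [hk]; exact Nat.le_add_right _ _
          exact_mod_cast this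
    rwa [div_le_iff₀ hlogr0] at h1
  have hmain : (pw G t).Colorable (m * k) := by
    apply Up.combine Part.t_F1 (pw G t) D1 (Q * d ^ (2 * t - 1)) m r s k
      (fun v => Up.deg_pw hG hd1 t v)
      (fun v => Up.ep_pw hG hd1 ht K v (hK (Fin n) G d hG hcyc v))
    · rw [hm]
      exact Nat.mul_pos (pow_pos (by omega) _) (by omega)
    · rw [hD1, hm, hr, ← hpt]
      calc 6 * ((t + 1) * (d ^ (t - 1) * d)) = 6 * (t + 1) * d ^ (t - 1) * d := by ring
        _ ≤ 6 * (t + 1) * d ^ (t - 1) * (3 * s0 ^ 2) := Nat.mul_le_mul_left _ e7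
        _ = _ := by ring
    · have hp2 : d ^ (2 * t - 1) = (d ^ (t - 1)) ^ 2 * d := by
        rw [← pow_mul, ← pow_succ]; congr 1; omega
      rw [hp2, hm]
      calc 6 * (Q * ((d ^ (t - 1)) ^ 2 * d)) = 6 * Q * (d ^ (t - 1)) ^ 2 * d := by ring
        _ ≤ 6 * Q * (d ^ (t - 1)) ^ 2 * (3 * s0 ^ 2) := Nat.mul_le_mul_left _ e7
        _ = ((d ^ (t - 1)) ^ 2 * s0 ^ 2) * (18 * Q) := by ring
        _ ≤ ((d ^ (t - 1)) ^ 2 * s0 ^ 2) * s := Nat.mul_le_mul_left _ (by omega)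
        _ = _ := by ring
    · exact hbig.trans (Nat.pow_le_pow_right (by norm_num) hrs)
    · exact hbig
    · intro V _ H b hb hdeg hB
      exact hD0 V H r k b (by nlinarith) hk1 hb hdeg hB
    · rw [hk]; exact Nat.le_add_left _ _
  refine hmain.mono ?_
  apply Nat.le_floor
  rw [le_div_iff₀ hlogd]
  have hkle : (k : ℝ) ≤ 8 * (r : ℝ) / Real.log r + 9 * s := by
    have h1 : (⌈8 * (r : ℝ) / Real.log r⌉₊ : ℝ) < 8 * (r : ℝ) / Real.log r + 1 :=
      Nat.ceil_lt_add_one (by positivity)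
    have h2 : (1 : ℝ) ≤ s := by
      have : 1 ≤ s := by omega
      exact_mod_cast this
    rw [hk]; push_cast
    linarith
  have f1 : 8 * (r : ℝ) / Real.log r * Real.log d ≤ 16 * r := by
    rw [div_mul_eq_mul_div, div_le_iff₀ hlogr0]
    nlinarith
  have f2 : Real.log d ≤ 4 * s := by
    have h1 : (d : ℝ) ≤ ((s : ℝ) + 1) ^ 4 := by
      have : d ≤ (s + 1) ^ 4 := by
        calc d ≤ (s0 + 1) ^ 2 := e2.le
          _ ≤ ((s + 1) ^ 2) ^ 2 := Nat.pow_le_pow_left e4 2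
          _ = _ := by ring
      exact_mod_cast this
    have h2 := Real.log_le_log (by exact_mod_cast hd1) h1
    rw [Real.log_pow] at h2
    have h3 : Real.log ((s : ℝ) + 1) ≤ s := by
      have := Real.log_le_sub_one_of_pos (show (0 : ℝ) < (s : ℝ) + 1 by positivity)
      linarith
    push_cast at h2
    linarith
  have f3 : (k : ℝ) * Real.log d ≤ (288 * (t + 1) + 36) * s0 := by
    have g1 : (k : ℝ) * Real.log d ≤ (8 * (r : ℝ) / Real.log r + 9 * s) * Real.log d :=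
      mul_le_mul_of_nonneg_right hkle hlogd.le
    have g2 : (9 * (s : ℝ)) * Real.log d ≤ 36 * s0 := by
      calc (9 * (s : ℝ)) * Real.log d ≤ (9 * (s : ℝ)) * (4 * s) :=
            mul_le_mul_of_nonneg_left f2 (by positivity)
        _ = 36 * (s : ℝ) ^ 2 := by ring
        _ ≤ 36 * s0 := by
            have : (s : ℝ) ^ 2 ≤ s0 := by exact_mod_cast e3
            linarith
    have g3 : (16 : ℝ) * r = 288 * (t + 1) * s0 := by rw [hr]; push_cast; ring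
    have g4 : (8 * (r : ℝ) / Real.log r + 9 * s) * Real.log d =
      8 * (r : ℝ) / Real.log r * Real.log d + 9 * s * Real.log d := by ring
    nlinarith
  have e1' : (s0 : ℝ) ^ 2 ≤ d := by exact_mod_cast e1
  have hpt' : (d : ℝ) ^ (t - 1) * d = (d : ℝ) ^ t := by exact_mod_cast hpt
  push_cast
  calc (m : ℝ) * k * Real.log d = (d : ℝ) ^ (t - 1) * s0 * (k * Real.log d) := by
        rw [hm]; push_cast; ring
    _ ≤ (d : ℝ) ^ (t - 1) * s0 * ((288 * (t + 1) + 36) * s0) :=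
        mul_le_mul_of_nonneg_left f3 (by positivity)
    _ = (288 * (t + 1) + 36) * ((d : ℝ) ^ (t - 1) * s0 ^ 2) := by ring
    _ ≤ (288 * (t + 1) + 36) * ((d : ℝ) ^ (t - 1) * d) := by
        apply mul_le_mul_of_nonneg_left _ (by positivity)
        exact mul_le_mul_of_nonneg_left e1' (by positivity)
    _ = _ := by rw [hpt']

end Pool.Agent.TH444.DC.Asm
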