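import Pool.Agent.TH444.DC.Defs

set_option autoImplicit false

/-!
# The composed graph (task C)
-/

namespace Pool.Agent.TH444.DC.Comp

open Finset

/-- counting lemma -/
theorem count {X W : Type} [Fintype X] [Fintype W] (F : SimpleGraph X) (a k : ℕ)
    (ha : ∀ A : Finset X, (∀ x ∈ A, ∀ y ∈ A, ¬ F.Adj x y) → A.card ≤ a)
    (ψ : X → W → Fin k) (h1 : ∀ x w w', w ≠ w' → ψ x w ≠ ψ x w')
    (h2 : ∀ x x' w w', F.Adj x x' → ψ x w ≠ ψ x' w') :
    Fintype.card X * Fintype.card W ≤ k * a := by
  classical
  have h3 : (univ : Finset (X × W)).card =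
      ∑ c : Fin k, ((univ : Finset (X × W)).filter (fun p => ψ p.1 p.2 = c)).card :=
    Finset.card_eq_sum_card_fiberwise (fun _ _ => mem_univ _)
  rw [card_univ, Fintype.card_prod] at h3
  rw [h3]
  calc ∑ c : Fin k, ((univ : Finset (X × W)).filter (fun p => ψ p.1 p.2 = c)).card
      ≤ ∑ _c : Fin k, a := by
        apply sum_le_sum
        intro c _
        have h4 : (((univ : Finset (X × W)).filter (fun p => ψ p.1 p.2 = c)).image Prod.fst).card =
            ((univ : Finset (X × W)).filter (fun p => ψ p.1 p.2 = c)).card := by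
          apply card_image_of_injOn
          intro p hp q hq hpq
          have hp' : ψ p.1 p.2 = c := by simpa using hp
          have hq' : ψ q.1 q.2 = c := by simpa using hq
          have hpq' : p.1 = q.1 := hpq
          by_contra hne
          have h5 : p.2 ≠ q.2 := fun h => hne (Prod.ext hpq' h)
          apply h1 p.1 p.2 q.2 h5
          rw [hp']
          rw [hpq']
          exact hq'.symm
        rw [← h4]
        apply ha
        intro x hx y hy hxy
        rw [mem_image] at hx hy
        obtain ⟨p, hp, rfl⟩ := hx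
        obtain ⟨q, hq, rfl⟩ := hy
        have hp' : ψ p.1 p.2 = c := by simpa using hp
        have hq' : ψ q.1 q.2 = c := by simpa using hq
        exact h2 p.1 q.1 p.2 q.2 hxy (hp'.trans hq'.symm)
    _ = k * a := by simp

section

variable {X : Type} (F : SimpleGraph X) (r m : ℕ)

/-- the vertices: `inl (x, i, w)` and `inr (e, j, u)`; those with `i = 0` form the set `S` -/
abbrev Vt : Type := (X × Fin (2 * r + 2) × (Fin (2 * r + 2) → Fin m)) ⊕
  (F.Dart × Fin (2 * r + 2) × (Fin (2 * r + 1) → Fin m))

/-- the edges -/
inductive Rl : Vt F r m → Vt F r m → Prop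
  | loop (x : X) (i : Fin (2 * r + 2)) (w w' : Fin (2 * r + 2) → Fin m)
      (h : ∀ k, k ≠ i → w k = w' k) : Rl (Sum.inl (x, i, w)) (Sum.inl (x, i + 1, w'))
  | out (e : F.Dart) (w : Fin (2 * r + 2) → Fin m) :
      Rl (Sum.inl (e.fst, 0, w)) (Sum.inr (e, 0, fun k => w k.succ))
  | step (e : F.Dart) (j : ℕ) (hj : j + 1 < 2 * r + 2) (u u' : Fin (2 * r + 1) → Fin m)
      (h : ∀ k : Fin (2 * r + 1), k.val ≠ j → u k = u' k) :
      Rl (Sum.inr (e, ⟨j, by omega⟩, u)) (Sum.inr (e, ⟨j + 1, hj⟩, u'))
  | inn (e : F.Dart) (w : Fin (2 * r + 2) → Fin m) :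
      Rl (Sum.inr (e, ⟨2 * r + 1, by omega⟩, fun k => w k.succ)) (Sum.inl (e.snd, 0, w))

/-- the composed graph -/
def G : SimpleGraph (Vt F r m) := SimpleGraph.fromRel (Rl F r m)

variable {F r m}

theorem rl_ne {a b : Vt F r m} (h : Rl F r m a b) : a ≠ b := by
  cases h with
  | loop x i w w' h =>
    intro h
    simp only [Sum.inl.injEq, Prod.mk.injEq, true_and] at h
    have h1 := congrArg Fin.val h.1
    rw [Fin.val_add] at h1
    have h2 : ((1 : Fin (2 * r + 2)) : ℕ) = 1 := by
      rw [Fin.val_one']
      exact Nat.mod_eq_of_lt (by omega)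
    rw [h2] at h1
    have h3 := i.isLt
    rcases Nat.lt_or_ge (i.val + 1) (2 * r + 2) with h4 | h4
    · rw [Nat.mod_eq_of_lt h4] at h1; omega
    · have h5 : i.val + 1 = 2 * r + 2 := by omega
      rw [h5, Nat.mod_self] at h1; omega
  | out e w => simp
  | step e j hj u u' h =>
    intro h
    simp only [Sum.inr.injEq, Prod.mk.injEq, true_and] at h
    have := congrArg Fin.val h.1
    simp at this
  | inn e w => simp

theorem adj_of_rl {a b : Vt F r m} (h : Rl F r m a b) : (G F r m).Adj a b := by
  rw [G, SimpleGraph.fromRel_adj]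
  exact ⟨rl_ne h, Or.inl h⟩

/-! ### degrees -/

theorem ncard_range_le {α β : Type} [Finite α] (f : α → β) :
    (Set.range f).ncard ≤ Nat.card α := by
  rw [← Set.image_univ, ← Set.ncard_univ]
  exact Set.ncard_image_le Set.finite_univ

theorem out_le [Fintype X] (hd : ∀ x, (F.neighborSet x).ncard ≤ m) (v : Vt F r m) :
    {b | Rl F r m v b}.ncard ≤ 2 * m := by
  classical
  rcases v with ⟨x, i, w⟩ | ⟨e, j, u⟩
  · have hsub : {b | Rl F r m (Sum.inl (x, i, w)) b} ⊆
        Set.range (fun a : Fin m => (Sum.inl (x, i + 1, Function.update w i a) : Vt F r m)) ∪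
        Set.range (fun y : F.neighborSet x =>
          (Sum.inr (⟨(x, y.1), y.2⟩, 0, fun k => w k.succ) : Vt F r m)) := by
      intro b hb
      rcases hb with ⟨_, _, _, w', h⟩ | ⟨e, _⟩
      · left
        refine ⟨w' i, ?_⟩
        simp only [Sum.inl.injEq, Prod.mk.injEq, true_and]
        funext k
        by_cases hk : k = i
        · subst hk; simp
        · rw [Function.update_of_ne hk]; exact h k hk
      · right
        exact ⟨⟨e.snd, e.adj⟩, rfl⟩
    refine (Set.ncard_le_ncard hsub (Set.toFinite _)).trans
      ((Set.ncard_union_le _ _).trans ?_)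
    have h1 := ncard_range_le (fun a : Fin m =>
      (Sum.inl (x, i + 1, Function.update w i a) : Vt F r m))
    have h2 := ncard_range_le (fun y : F.neighborSet x =>
          (Sum.inr (⟨(x, y.1), y.2⟩, 0, fun k => w k.succ) : Vt F r m))
    rw [Nat.card_eq_fintype_card, Fintype.card_fin] at h1
    have h3 := hd x
    rw [← Nat.card_coe_set_eq] at h3
    omega
  · have hsub : {b | Rl F r m (Sum.inr (e, j, u)) b} ⊆
        Set.range (fun a : Fin m => (Sum.inr (e, j + 1, fun k => if k.val = j.val then a else u k) :
          Vt F r m)) ∪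
        Set.range (fun a : Fin m => (Sum.inl (e.snd, 0, Fin.cons a u) : Vt F r m)) := by
      intro b hb
      generalize ha : (Sum.inr (e, j, u) : Vt F r m) = a at hb
      cases hb with
      | loop => simp at ha
      | out => simp at ha
      | step e' j' hj' u1 u' h =>
        simp only [Sum.inr.injEq, Prod.mk.injEq] at ha
        obtain ⟨rfl, rfl, rfl⟩ := ha
        left
        by_cases hj2 : j' < 2 * r + 1
        · refine ⟨u' ⟨j', hj2⟩, ?_⟩
          simp only [Sum.inr.injEq, Prod.mk.injEq, true_and]
          constructor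
          · apply Fin.ext
            rw [Fin.val_add]
            have h2 : ((1 : Fin (2 * r + 2)) : ℕ) = 1 := by
              rw [Fin.val_one']
              exact Nat.mod_eq_of_lt (by omega)
            rw [h2]
            exact Nat.mod_eq_of_lt hj'
          · funext k
            split_ifs with hk
            · congr 1
              exact Fin.ext hk.symm
            · exact h k hk
        · omega
      | inn e' w =>
        simp only [Sum.inr.injEq, Prod.mk.injEq] at ha
        obtain ⟨rfl, rfl, rfl⟩ := ha
        right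
        refine ⟨w 0, ?_⟩
        simp only [Sum.inl.injEq, Prod.mk.injEq, true_and]
        funext k
        refine Fin.cases ?_ (fun k => ?_) k
        · simp
        · simp
    refine (Set.ncard_le_ncard hsub (Set.toFinite _)).trans
      ((Set.ncard_union_le _ _).trans ?_)
    have h1 := ncard_range_le (fun a : Fin m =>
      (Sum.inr (e, j + 1, fun k => if k.val = j.val then a else u k) : Vt F r m))
    have h2 := ncard_range_le (fun a : Fin m => (Sum.inl (e.snd, 0, Fin.cons a u) : Vt F r m))
    rw [Nat.card_eq_fintype_card, Fintype.card_fin] at h1 h2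
    omega

theorem in_le [Fintype X] (hd : ∀ x, (F.neighborSet x).ncard ≤ m) (v : Vt F r m) :
    {b | Rl F r m b v}.ncard ≤ 2 * m := by
  classical
  rcases v with ⟨x, i, w⟩ | ⟨e, j, u⟩
  · have hsub : {b | Rl F r m b (Sum.inl (x, i, w))} ⊆
        Set.range (fun a : Fin m => (Sum.inl (x, i - 1, Function.update w (i - 1) a) : Vt F r m)) ∪
        Set.range (fun y : F.neighborSet x =>
          (Sum.inr (⟨(y.1, x), y.2.symm⟩, ⟨2 * r + 1, by omega⟩, fun k => w k.succ) :
            Vt F r m)) := by
      intro b hb
      generalize ha : (Sum.inl (x, i, w) : Vt F r m) = a at hb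
      cases hb with
      | loop x' i' w1 w' h =>
        simp only [Sum.inl.injEq, Prod.mk.injEq] at ha
        obtain ⟨rfl, rfl, rfl⟩ := ha
        left
        refine ⟨w1 i', ?_⟩
        simp only [Sum.inl.injEq, Prod.mk.injEq, true_and, add_sub_cancel_right]
        funext k
        by_cases hk : k = i'
        · subst hk; simp
        · rw [Function.update_of_ne hk]; exact (h k hk).symm
      | out => simp at ha
      | step => simp at ha
      | inn e' w1 =>
        simp only [Sum.inl.injEq, Prod.mk.injEq] at ha
        obtain ⟨rfl, rfl, rfl⟩ := ha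
        right
        exact ⟨⟨e'.fst, e'.adj.symm⟩, rfl⟩
    refine (Set.ncard_le_ncard hsub (Set.toFinite _)).trans
      ((Set.ncard_union_le _ _).trans ?_)
    have h1 := ncard_range_le (fun a : Fin m =>
      (Sum.inl (x, i - 1, Function.update w (i - 1) a) : Vt F r m))
    have h2 := ncard_range_le (fun y : F.neighborSet x =>
          (Sum.inr (⟨(y.1, x), y.2.symm⟩, ⟨2 * r + 1, by omega⟩, fun k => w k.succ) : Vt F r m))
    rw [Nat.card_eq_fintype_card, Fintype.card_fin] at h1
    have h3 := hd x
    rw [← Nat.card_coe_set_eq] at h3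
    omega
  · have hsub : {b | Rl F r m b (Sum.inr (e, j, u))} ⊆
        Set.range (fun a : Fin m => (Sum.inr (e, j - 1,
          fun k => if k.val + 1 = j.val then a else u k) : Vt F r m)) ∪
        Set.range (fun a : Fin m => (Sum.inl (e.fst, 0, Fin.cons a u) : Vt F r m)) := by
      intro b hb
      generalize ha : (Sum.inr (e, j, u) : Vt F r m) = a at hb
      cases hb with
      | loop => simp at ha
      | out e' w =>
        simp only [Sum.inr.injEq, Prod.mk.injEq] at ha
        obtain ⟨rfl, rfl, rfl⟩ := ha
        right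
        refine ⟨w 0, ?_⟩
        simp only [Sum.inl.injEq, Prod.mk.injEq, true_and]
        funext k
        refine Fin.cases ?_ (fun k => ?_) k
        · simp
        · simp
      | step e' j' hj' u1 u' h =>
        simp only [Sum.inr.injEq, Prod.mk.injEq] at ha
        obtain ⟨rfl, rfl, rfl⟩ := ha
        left
        refine ⟨u1 ⟨j', by omega⟩, ?_⟩
        simp only [Sum.inr.injEq, Prod.mk.injEq, true_and]
        constructor
        · rw [sub_eq_iff_eq_add]
          apply Fin.ext
          rw [Fin.val_add]
          have h2 : ((1 : Fin (2 * r + 2)) : ℕ) = 1 := by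
            rw [Fin.val_one']
            exact Nat.mod_eq_of_lt (by omega)
          rw [h2]
          exact (Nat.mod_eq_of_lt hj').symm
        · funext k
          split_ifs with hk
          · congr 1
            apply Fin.ext
            simp only
            omega
          · exact (h k (by omega)).symm
      | inn => simp at ha
    refine (Set.ncard_le_ncard hsub (Set.toFinite _)).trans
      ((Set.ncard_union_le _ _).trans ?_)
    have h1 := ncard_range_le (fun a : Fin m => (Sum.inr (e, j - 1,
          fun k => if k.val + 1 = j.val then a else u k) : Vt F r m))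
    have h2 := ncard_range_le (fun a : Fin m => (Sum.inl (e.fst, 0, Fin.cons a u) : Vt F r m))
    rw [Nat.card_eq_fintype_card, Fintype.card_fin] at h1 h2
    omega

theorem deg_le [Fintype X] (hd : ∀ x, (F.neighborSet x).ncard ≤ m) (v : Vt F r m) :
    ((G F r m).neighborSet v).ncard ≤ 4 * m := by
  classical
  have hsub : (G F r m).neighborSet v ⊆ {b | Rl F r m v b} ∪ {b | Rl F r m b v} := by
    intro b hb
    rw [SimpleGraph.mem_neighborSet, G, SimpleGraph.fromRel_adj] at hb
    exact hb.2
  refine (Set.ncard_le_ncard hsub (Set.toFinite _)).trans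
    ((Set.ncard_union_le _ _).trans ?_)
  have h1 := out_le hd v
  have h2 := in_le hd v
  omega

end

end Pool.Agent.TH444.DC.Comp
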