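import Mathlib

set_option autoImplicit false

/-!
# Distance colouring of graphs without an odd cycle length: common definitions
-/

namespace Pool.Agent.TH444.DC

/-- the `t`-th power of the graph `G` -/
def pw {V : Type} (G : SimpleGraph V) (t : ℕ) : SimpleGraph V :=
  SimpleGraph.fromRel (fun u v => ∃ p : G.Walk u v, p.length ≤ t)

/-- `G` has no cycle of length `l` -/
def NoCyc {V : Type} (G : SimpleGraph V) (l : ℕ) : Prop :=
  ¬ ∃ v : V, ∃ p : G.Walk v v, p.IsCycle ∧ p.length = l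

/-- E: in a graph without cycles of length `3 t + 2 j` there are few pairs such that they and `v`
have pairwise distance `t` -/
def S_E : Prop := ∀ t j : ℕ, 1 ≤ t → ∃ K : ℕ, ∀ (V : Type) [Fintype V] (G : SimpleGraph V) (d : ℕ),
  (∀ v, (G.neighborSet v).ncard ≤ d) → NoCyc G (3 * t + 2 * j) → ∀ v : V,
    {q : V × V | G.dist v q.1 = t ∧ G.dist v q.2 = t ∧ G.dist q.1 q.2 = t}.ncard ≤
      K * d ^ (2 * t - 1)

/-- F1: a random partition (local lemma) -/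
def S_F1 : Prop := ∀ (V : Type) [Fintype V] (H : SimpleGraph V) (D E m r s : ℕ),
  (∀ v, (H.neighborSet v).ncard ≤ D) →
  (∀ v, {q : V × V | H.Adj v q.1 ∧ H.Adj v q.2 ∧ H.Adj q.1 q.2}.ncard ≤ E) →
  1 ≤ m → 6 * D ≤ m * r → 6 * E ≤ m ^ 2 * s → 16 * (D + 1) ^ 2 ≤ 2 ^ r →
  16 * (D + 1) ^ 2 ≤ 2 ^ s →
  ∃ π : V → Fin m, ∀ v, {u : V | H.Adj v u ∧ π u = π v}.ncard ≤ r ∧
    ∃ B : Set V, B.ncard ≤ 2 * s ∧
      ∀ x y, H.Adj v x → H.Adj v y → π x = π v → π y = π v → H.Adj x y → x ∈ B ∨ y ∈ B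

/-- F2: colouring by counting (Rosenfeld, Martinsson) -/
def S_F2 : Prop := ∃ D0 : ℕ, ∀ (V : Type) [Fintype V] (H : SimpleGraph V) (D k b : ℕ),
  D0 ≤ D → 8 * (D : ℝ) ≤ k * Real.log D → 4 * b ≤ k →
  (∀ v, (H.neighborSet v).ncard ≤ D) →
  (∀ v, ∃ B : Set V, B.ncard ≤ b ∧
    ∀ x y, H.Adj v x → H.Adj v y → H.Adj x y → x ∈ B ∨ y ∈ B) →
  H.Colorable k

/-- D: sparse graphs without short cycles and with small independence number -/
def S_D : Prop := ∀ g : ℕ, ∃ c : ℝ, 0 < c ∧ ∃ M : ℕ, ∀ m : ℕ, M ≤ m →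
  ∃ (X : Type) (_ : Fintype X) (F : SimpleGraph X) (a : ℕ),
    (∀ x, (F.neighborSet x).ncard ≤ m) ∧ (∀ l, l < g → NoCyc F l) ∧
    (∀ A : Finset X, (∀ x ∈ A, ∀ y ∈ A, ¬ F.Adj x y) → A.card ≤ a) ∧
    0 < Fintype.card X ∧ c * m * a ≤ Fintype.card X * Real.log m

/-- C: the composed graph -/
def S_C : Prop := ∀ (s : ℕ) (X : Type) [Fintype X] (F : SimpleGraph X) (m a g : ℕ), 1 ≤ m →
  (∀ x, (F.neighborSet x).ncard ≤ m) →
  (∀ (x : X) (p : F.Walk x x), Odd p.length → g ≤ p.length) →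
  (∀ A : Finset X, (∀ x ∈ A, ∀ y ∈ A, ¬ F.Adj x y) → A.card ≤ a) →
  ∃ (V : Type) (_ : Fintype V) (G : SimpleGraph V),
    (∀ v, (G.neighborSet v).ncard ≤ 4 * m) ∧
    (∀ l, Odd l → l < (2 * s + 1) * g → NoCyc G l) ∧
    ∀ k, (pw G (2 * s + 1)).Colorable k → Fintype.card X * m ^ (2 * s) ≤ k * a

/-- W: an odd closed walk is at least as long as some odd cycle -/
def S_W : Prop := ∀ (X : Type) (F : SimpleGraph X) (g : ℕ), (∀ l, l < g → NoCyc F l) →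
  ∀ (x : X) (p : F.Walk x x), Odd p.length → g ≤ p.length

end Pool.Agent.TH444.DC
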