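import Pool.Agent.TH444.DC.Defs

set_option autoImplicit false

/-!
# Task E: few triples at distance `t` in graphs without cycles of length `3 t + 2 j`
-/

namespace Pool.Agent.TH444.DC.Few

open Finset SimpleGraph
open Classical

set_option linter.unusedSectionVars false
set_option linter.unusedDecidableInType false

variable {V : Type} [Fintype V] (G : SimpleGraph V)

/-- there is a walk of length `i` -/
def R (i : ℕ) (v w : V) : Prop := ∃ p : G.Walk v w, p.length = i

/-- the endpoints of the walks of length `i` -/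
noncomputable def Wf (i : ℕ) (v : V) : Finset V := univ.filter (fun w => R G i v w)

/-- the neighbours -/
noncomputable def Nb (v : V) : Finset V := univ.filter (fun w => G.Adj v w)

variable {G}

theorem mem_Wf {i : ℕ} {v w : V} : w ∈ Wf G i v ↔ R G i v w := by
  classical
  simp [Wf]

theorem mem_Nb {v w : V} : w ∈ Nb G v ↔ G.Adj v w := by
  classical
  simp [Nb]

theorem R.symm {i : ℕ} {v w : V} (h : R G i v w) : R G i w v := by
  obtain ⟨p, hp⟩ := h
  exact ⟨p.reverse, by rw [Walk.length_reverse, hp]⟩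

theorem card_Nb {d : ℕ} (hd : ∀ v, (G.neighborSet v).ncard ≤ d) (v : V) : (Nb G v).card ≤ d := by
  classical
  refine le_trans (le_of_eq ?_) (hd v)
  rw [← Set.ncard_coe_finset]
  congr 1
  ext w
  simp [mem_Nb]

theorem card_Wf {d : ℕ} (hd : ∀ v, (G.neighborSet v).ncard ≤ d) (i : ℕ) :
    ∀ v : V, (Wf G i v).card ≤ d ^ i := by
  classical
  induction i with
  | zero =>
    intro v
    rw [pow_zero, card_le_one]
    intro a ha b hb
    rw [mem_Wf] at ha hb
    obtain ⟨p, hp⟩ := ha
    obtain ⟨q, hq⟩ := hb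
    rw [← Walk.eq_of_length_eq_zero hp, ← Walk.eq_of_length_eq_zero hq]
  | succ i ih =>
    intro v
    have hsub : Wf G (i + 1) v ⊆ (Nb G v).biUnion (fun u => Wf G i u) := by
      intro w hw
      rw [mem_Wf] at hw
      obtain ⟨p, hp⟩ := hw
      cases p with
      | nil => simp at hp
      | @cons _ u _ h p =>
        rw [mem_biUnion]
        refine ⟨u, mem_Nb.2 h, mem_Wf.2 ⟨p, ?_⟩⟩
        rw [Walk.length_cons] at hp
        omega
    calc (Wf G (i + 1) v).card ≤ ((Nb G v).biUnion (fun u => Wf G i u)).card := card_le_card hsub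
      _ ≤ (Nb G v).card * d ^ i := card_biUnion_le_card_mul _ _ _ (fun u _ => ih u)
      _ ≤ d * d ^ i := Nat.mul_le_mul_right _ (card_Nb hd v)
      _ = d ^ (i + 1) := by rw [pow_succ]; ring

/-- three step counting -/
theorem cnt3 {A : Finset V} {C D : V → Finset V} {P : Finset (V × V)} {a c e : ℕ}
    (hA : A.card ≤ a) (hC : ∀ x ∈ A, (C x).card ≤ c) (hD : ∀ x ∈ A, ∀ y ∈ C x, (D y).card ≤ e)
    (hP : ∀ q ∈ P, q.1 ∈ A ∧ ∃ y ∈ C q.1, q.2 ∈ D y) : P.card ≤ a * (c * e) := by
  classical
  have hsub : P ⊆ A.biUnion (fun x => (C x).biUnion (fun y => (D y).image (fun z => (x, z)))) := by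
    intro q hq
    obtain ⟨h1, y, hy, h2⟩ := hP q hq
    rw [mem_biUnion]
    refine ⟨q.1, h1, ?_⟩
    rw [mem_biUnion]
    exact ⟨y, hy, mem_image.2 ⟨q.2, h2, rfl⟩⟩
  calc P.card ≤ _ := card_le_card hsub
    _ ≤ A.card * (c * e) := by
        apply card_biUnion_le_card_mul
        intro x hx
        calc _ ≤ (C x).card * e := by
              apply card_biUnion_le_card_mul
              intro y hy
              exact card_image_le.trans (hD x hx y hy)
          _ ≤ c * e := Nat.mul_le_mul_right _ (hC x hx)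
    _ ≤ a * (c * e) := Nat.mul_le_mul_right _ hA

variable (G)

/-- the bad pairs -/
def Bad (t : ℕ) (v x y : V) : Prop :=
  ∃ i j : ℕ, i + j = t ∧ 1 ≤ i ∧ 1 ≤ j ∧ ∃ w, R G j v w ∧ R G j w x ∧ R G i w y

/-- the good pairs -/
def Good (t : ℕ) (v x y : V) : Prop :=
  G.dist v x = t ∧ G.dist v y = t ∧ G.dist x y = t ∧ ¬ Bad G t v x y

/-- the triples -/
noncomputable def T (t : ℕ) (v : V) : Finset (V × V) :=
  univ.filter (fun q => G.dist v q.1 = t ∧ G.dist v q.2 = t ∧ G.dist q.1 q.2 = t)

/-- the sphere -/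
noncomputable def Sp (t : ℕ) (v : V) : Finset V := univ.filter (fun x => G.dist v x = t)

/-- the partners of `x` -/
noncomputable def Gd (t : ℕ) (v x : V) : Finset V := univ.filter (fun y => Good G t v x y)

/-- the vertices from which one can zigzag `i` times -/
noncomputable def S (t : ℕ) (v : V) (M K : ℕ) : ℕ → Finset V
  | 0 => (Sp G t v).filter (fun x => K < (Gd G t v x).card)
  | i + 1 => (Sp G t v).filter (fun x => M ≤ ((Nb G x).filter
      (fun c => M ≤ ((Nb G c) ∩ (S t v M K i)).card)).card)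

/-- the rich vertices -/
noncomputable def Rc (t : ℕ) (v : V) (M K i : ℕ) : Finset V :=
  univ.filter (fun c => M ≤ ((Nb G c) ∩ (S G t v M K i)).card)

variable {G}

theorem mem_Sp {t : ℕ} {v x : V} : x ∈ Sp G t v ↔ G.dist v x = t := by
  classical
  simp [Sp]

theorem mem_Gd {t : ℕ} {v x y : V} : y ∈ Gd G t v x ↔ Good G t v x y := by
  classical
  simp [Gd]

theorem mem_T {t : ℕ} {v : V} {q : V × V} : q ∈ T G t v ↔
    G.dist v q.1 = t ∧ G.dist v q.2 = t ∧ G.dist q.1 q.2 = t := by
  classical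
  simp [T]

theorem mem_Rc {t : ℕ} {v c : V} {M K i : ℕ} : c ∈ Rc G t v M K i ↔
    M ≤ ((Nb G c) ∩ (S G t v M K i)).card := by
  classical
  simp [Rc]

theorem mem_S_zero {t : ℕ} {v x : V} {M K : ℕ} : x ∈ S G t v M K 0 ↔
    x ∈ Sp G t v ∧ K < (Gd G t v x).card := by
  classical
  simp [S]

theorem mem_S_succ {t : ℕ} {v x : V} {M K i : ℕ} : x ∈ S G t v M K (i + 1) ↔
    x ∈ Sp G t v ∧ M ≤ ((Nb G x) ∩ (Rc G t v M K i)).card := by
  classical
  have h : (Nb G x).filter (fun c => M ≤ ((Nb G c) ∩ (S G t v M K i)).card) =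
      (Nb G x) ∩ (Rc G t v M K i) := by
    ext c
    simp [mem_Rc]
  rw [S, mem_filter, h]

theorem dist_R {t : ℕ} (ht : 1 ≤ t) {v x : V} (h : G.dist v x = t) : R G t v x := by
  have h1 : G.Reachable v x := Reachable.of_dist_ne_zero (by omega)
  obtain ⟨p, hp⟩ := h1.exists_walk_length_eq_dist
  exact ⟨p, by rw [hp, h]⟩

theorem first_step {t : ℕ} (ht : 1 ≤ t) {x y : V} (h : R G t x y) :
    ∃ c, G.Adj x c ∧ R G (t - 1) c y := by
  obtain ⟨p, hp⟩ := h
  cases p with
  | nil => simp only [Walk.length_nil] at hp; omega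
  | @cons _ c _ h p =>
    rw [Walk.length_cons] at hp
    exact ⟨c, h, p, by omega⟩

theorem card_Sp {d : ℕ} (hd : ∀ v, (G.neighborSet v).ncard ≤ d) {t : ℕ} (ht : 1 ≤ t) (v : V) :
    (Sp G t v).card ≤ d ^ t := by
  refine (card_le_card ?_).trans (card_Wf hd t v)
  intro x hx
  rw [mem_Sp] at hx
  exact mem_Wf.2 (dist_R ht hx)

theorem card_bad {d : ℕ} (hd : ∀ v, (G.neighborSet v).ncard ≤ d) (hd1 : 1 ≤ d) (t : ℕ) (v : V)
    (P : Finset (V × V)) (hP : ∀ q ∈ P, Bad G t v q.1 q.2) : P.card ≤ t * d ^ (2 * t - 1) := by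
  classical
  have hsub : P ⊆ (range t).biUnion (fun j => if 1 ≤ j then
      (Wf G j v).biUnion (fun w => (Wf G j w) ×ˢ (Wf G (t - j) w)) else ∅) := by
    intro q hq
    obtain ⟨i, j, hij, hi, hj, w, h1, h2, h3⟩ := hP q hq
    rw [mem_biUnion]
    refine ⟨j, mem_range.2 (by omega), ?_⟩
    rw [if_pos hj, mem_biUnion]
    refine ⟨w, mem_Wf.2 h1, ?_⟩
    rw [mem_product]
    refine ⟨mem_Wf.2 h2, mem_Wf.2 ?_⟩
    rw [show t - j = i by omega]
    exact h3
  calc P.card ≤ _ := card_le_card hsub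
    _ ≤ (range t).card * d ^ (2 * t - 1) := by
        apply card_biUnion_le_card_mul
        intro j hj
        rw [mem_range] at hj
        split_ifs with h
        · calc _ ≤ (Wf G j v).card * (d ^ j * d ^ (t - j)) := by
                apply card_biUnion_le_card_mul
                intro w _
                rw [card_product]
                exact Nat.mul_le_mul (card_Wf hd _ _) (card_Wf hd _ _)
            _ ≤ d ^ j * (d ^ j * d ^ (t - j)) := Nat.mul_le_mul_right _ (card_Wf hd _ _)
            _ = d ^ (j + t) := by rw [← pow_add, ← pow_add]; congr 1; omega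
            _ ≤ d ^ (2 * t - 1) := Nat.pow_le_pow_right hd1 (by omega)
        · simp
    _ = t * d ^ (2 * t - 1) := by rw [card_range]

theorem card_out {d : ℕ} (hd : ∀ v, (G.neighborSet v).ncard ≤ d) (hd1 : 1 ≤ d) {t : ℕ}
    (ht : 1 ≤ t) (v : V) (M K1 : ℕ) (i : ℕ) :
    ((T G t v).filter (fun q => q.1 ∉ S G t v M (K1 * d ^ (t - 1)) i)).card ≤
      (t + K1 + 2 * M * i) * d ^ (2 * t - 1) := by
  have hpow : d ^ t * d ^ (t - 1) = d ^ (2 * t - 1) := by
    rw [← pow_add]; congr 1; omega
  induction i with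
  | zero =>
    have hsub : (T G t v).filter (fun q => q.1 ∉ S G t v M (K1 * d ^ (t - 1)) 0) ⊆
        ((T G t v).filter (fun q => Bad G t v q.1 q.2)) ∪
        ((Sp G t v).filter (fun x => (Gd G t v x).card ≤ K1 * d ^ (t - 1))).biUnion
          (fun x => (Gd G t v x).image (fun y => (x, y))) := by
      intro q hq
      rw [mem_filter, mem_T, mem_S_zero] at hq
      rw [mem_union]
      by_cases hb : Bad G t v q.1 q.2
      · left; exact mem_filter.2 ⟨mem_T.2 hq.1, hb⟩
      · right
        have h1 : q.1 ∈ Sp G t v := mem_Sp.2 hq.1.1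
        rw [mem_biUnion]
        refine ⟨q.1, mem_filter.2 ⟨h1, ?_⟩, mem_image.2 ⟨q.2, mem_Gd.2 ⟨hq.1.1, hq.1.2.1,
          hq.1.2.2, hb⟩, rfl⟩⟩
        by_contra h2
        exact hq.2 ⟨h1, not_le.1 h2⟩
    calc _ ≤ _ := card_le_card hsub
      _ ≤ _ := card_union_le _ _
      _ ≤ t * d ^ (2 * t - 1) + d ^ t * (K1 * d ^ (t - 1)) := by
          apply Nat.add_le_add
          · exact card_bad hd hd1 t v _ (fun q hq => (mem_filter.1 hq).2)
          · calc _ ≤ ((Sp G t v).filter (fun x => (Gd G t v x).card ≤ K1 * d ^ (t - 1))).card *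
                  (K1 * d ^ (t - 1)) := by
                  apply card_biUnion_le_card_mul
                  intro x hx
                  exact card_image_le.trans (mem_filter.1 hx).2
              _ ≤ d ^ t * (K1 * d ^ (t - 1)) := Nat.mul_le_mul_right _
                  ((card_le_card (filter_subset _ _)).trans (card_Sp hd ht v))
      _ = (t + K1 + 2 * M * 0) * d ^ (2 * t - 1) := by
          rw [← hpow]; ring
  | succ i ih =>
    set S0 := S G t v M (K1 * d ^ (t - 1)) i with hS0
    set R0 := Rc G t v M (K1 * d ^ (t - 1)) i with hR0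
    let PA : Finset (V × V) := (T G t v).filter (fun q => ((Nb G q.1) ∩ R0).card < M ∧
      ∃ c ∈ (Nb G q.1) ∩ R0, q.2 ∈ Wf G (t - 1) c)
    let PB : Finset (V × V) := (T G t v).filter (fun q => ∃ c, c ∉ R0 ∧ q.2 ∈ Wf G (t - 1) c ∧
      q.1 ∈ (Nb G c) ∩ S0)
    have hsub : (T G t v).filter (fun q => q.1 ∉ S G t v M (K1 * d ^ (t - 1)) (i + 1)) ⊆
        ((T G t v).filter (fun q => q.1 ∉ S0)) ∪ (PA ∪ PB) := by
      intro q hq
      rw [mem_filter] at hq
      have hqT := hq.1
      rw [mem_T] at hq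
      obtain ⟨⟨h1, h2, h3⟩, h4⟩ := hq
      rw [mem_S_succ] at h4
      have h5 : ((Nb G q.1) ∩ R0).card < M := by
        by_contra h
        exact h4 ⟨mem_Sp.2 h1, not_lt.1 h⟩
      rw [mem_union, mem_union]
      by_cases h6 : q.1 ∈ S0
      · right
        obtain ⟨c, h, h7⟩ := first_step ht (dist_R ht h3)
        rw [← mem_Wf] at h7
        by_cases hc : c ∈ R0
        · left
          exact mem_filter.2 ⟨hqT, h5, c, mem_inter.2 ⟨mem_Nb.2 h, hc⟩, h7⟩
        · right
          exact mem_filter.2 ⟨hqT, c, hc, h7, mem_inter.2 ⟨mem_Nb.2 h.symm, h6⟩⟩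
      · left
        exact mem_filter.2 ⟨hqT, h6⟩
    have hA : PA.card ≤ d ^ t * (M * d ^ (t - 1)) := by
      apply cnt3 (A := (Sp G t v).filter (fun x => ((Nb G x) ∩ R0).card < M))
        (C := fun x => (Nb G x) ∩ R0) (D := fun c => Wf G (t - 1) c)
      · exact (card_le_card (filter_subset _ _)).trans (card_Sp hd ht v)
      · intro x hx
        exact (mem_filter.1 hx).2.le
      · intro x _ c _
        exact card_Wf hd _ _
      · intro q hq
        obtain ⟨h1, h2, h3⟩ := mem_filter.1 hq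
        exact ⟨mem_filter.2 ⟨mem_Sp.2 (mem_T.1 h1).1, h2⟩, h3⟩
    have hB : PB.card ≤ d ^ t * (d ^ (t - 1) * M) := by
      have hcard : PB.card = (PB.image Prod.swap).card :=
        (card_image_of_injective _ Prod.swap_injective).symm
      rw [hcard]
      apply cnt3 (A := Sp G t v)
        (C := fun y => (Wf G (t - 1) y).filter (fun c => c ∉ R0)) (D := fun c => (Nb G c) ∩ S0)
      · exact card_Sp hd ht v
      · intro x _
        exact (card_le_card (filter_subset _ _)).trans (card_Wf hd _ _)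
      · intro x _ c hc
        have h1 := (mem_filter.1 hc).2
        rw [hR0, mem_Rc] at h1
        exact (not_le.1 h1).le
      · intro q hq
        obtain ⟨q', hq', rfl⟩ := mem_image.1 hq
        obtain ⟨h1, c, hc, h2, h3⟩ := mem_filter.1 hq'
        refine ⟨mem_Sp.2 (mem_T.1 h1).2.1, c, mem_filter.2 ⟨?_, hc⟩, h3⟩
        rw [mem_Wf] at h2 ⊢
        exact h2.symm
    calc _ ≤ _ := card_le_card hsub
      _ ≤ _ := card_union_le _ _
      _ ≤ (t + K1 + 2 * M * i) * d ^ (2 * t - 1) + (PA.card + PB.card) :=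
          Nat.add_le_add ih (card_union_le _ _)
      _ ≤ (t + K1 + 2 * M * i) * d ^ (2 * t - 1) +
          (d ^ t * (M * d ^ (t - 1)) + d ^ t * (d ^ (t - 1) * M)) := by
          apply Nat.add_le_add_left
          exact Nat.add_le_add hA hB
      _ = (t + K1 + 2 * M * (i + 1)) * d ^ (2 * t - 1) := by
          rw [← hpow]; ring

/-- zigzag paths -/
theorem zigzag (t : ℕ) (v : V) (M K : ℕ) (i : ℕ) : ∀ (x : V), x ∈ S G t v M K i →
    ∀ A : Finset V, A.card + 2 * i + 3 ≤ M →
    ∃ x', x' ∈ S G t v M K 0 ∧ ∃ p : G.Walk x x', p.IsPath ∧ p.length = 2 * i ∧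
      ∀ z ∈ p.support, z ∈ A → z = x := by
  classical
  induction i with
  | zero =>
    intro x hx A _
    refine ⟨x, hx, Walk.nil, Walk.IsPath.nil, rfl, ?_⟩
    intro z hz _
    simpa using hz
  | succ i ih =>
    intro x hx A hA
    rw [mem_S_succ] at hx
    obtain ⟨-, hx⟩ := hx
    obtain ⟨c, hc, hcA⟩ : ∃ c ∈ (Nb G x) ∩ (Rc G t v M K i), c ∉ insert x A := by
      apply exists_mem_notMem_of_card_lt_card
      have := card_insert_le x A
      omega
    rw [mem_inter, mem_Nb, mem_Rc] at hc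
    obtain ⟨hxc, hc⟩ := hc
    obtain ⟨x1, hx1, hx1A⟩ : ∃ x1 ∈ (Nb G c) ∩ (S G t v M K i), x1 ∉ insert c (insert x A) := by
      apply exists_mem_notMem_of_card_lt_card
      have h1 := card_insert_le x A
      have h2 := card_insert_le c (insert x A)
      omega
    rw [mem_inter, mem_Nb] at hx1
    obtain ⟨hcx1, hx1⟩ := hx1
    have hcard : (insert c (insert x A)).card + 2 * i + 3 ≤ M := by
      have h1 := card_insert_le x A
      have h2 := card_insert_le c (insert x A)
      omega
    obtain ⟨x', hx', p, hp, hpl, hpA⟩ := ih x1 hx1 (insert c (insert x A)) hcard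
    have hnot : ∀ z ∈ p.support, z ∉ insert c (insert x A) := by
      intro z hz hzA
      have := hpA z hz hzA
      rw [this] at hzA
      exact hx1A hzA
    have hcp : c ∉ p.support := fun h => hnot c h (mem_insert_self _ _)
    have hxp : x ∉ p.support := fun h => hnot x h (by simp)
    refine ⟨x', hx', Walk.cons hxc (Walk.cons hcx1 p), ?_, ?_, ?_⟩
    · rw [Walk.cons_isPath_iff, Walk.cons_isPath_iff, Walk.support_cons]
      refine ⟨⟨hp, hcp⟩, ?_⟩
      rw [List.mem_cons, not_or]
      exact ⟨hxc.ne, hxp⟩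
    · rw [Walk.length_cons, Walk.length_cons, hpl]; ring
    · intro z hz hzA
      rw [Walk.support_cons, Walk.support_cons, List.mem_cons, List.mem_cons] at hz
      rcases hz with rfl | rfl | hz
      · rfl
      · exact absurd hzA (fun h => hcA (mem_insert_of_mem h))
      · exact absurd (mem_insert_of_mem (mem_insert_of_mem hzA)) (hnot z hz)

end Pool.Agent.TH444.DC.Few
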