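import Pool.Agent.TH444.DC.Few

set_option autoImplicit false

/-!
# Task E: the cycle
-/

namespace Pool.Agent.TH444.DC.Few

open Finset SimpleGraph
open Classical

set_option linter.unusedSectionVars false
set_option linter.unusedDecidableInType false

variable {V : Type} [Fintype V] {G : SimpleGraph V}

theorem append_isPath {a b c : V} {p : G.Walk a b} {q : G.Walk b c} (hp : p.IsPath)
    (hq : q.IsPath) (h : ∀ z ∈ p.support, z ∈ q.support → z = b) : (p.append q).IsPath := by
  rw [Walk.isPath_def, Walk.support_append, List.nodup_append]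
  refine ⟨(Walk.isPath_def _).1 hp, ((Walk.isPath_def _).1 hq).tail, ?_⟩
  intro z hz z' hz' hzz
  subst hzz
  have h1 := h z hz (List.mem_of_mem_tail hz')
  subst h1
  have h2 := (Walk.isPath_def _).1 hq
  rw [Walk.support_eq_cons, List.nodup_cons] at h2
  exact h2.1 hz'

theorem geo_isPath {t : ℕ} {x y : V} (h : G.dist x y = t) (p : G.Walk x y) (hp : p.length = t) :
    p.IsPath := Walk.isPath_of_length_eq_dist p (by rw [hp, h])

theorem split {x y w : V} (p : G.Walk x y) (hw : w ∈ p.support) :
    ∃ i j, i + j = p.length ∧ R G i x w ∧ R G j w y := by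
  refine ⟨_, _, ?_, ⟨p.takeUntil w hw, rfl⟩, ⟨p.dropUntil w hw, rfl⟩⟩
  rw [← Walk.length_append, Walk.take_spec]

theorem R.dist_le {i : ℕ} {x y : V} (h : R G i x y) : G.dist x y ≤ i := by
  obtain ⟨p, hp⟩ := h
  rw [← hp]
  exact SimpleGraph.dist_le p

theorem R.trans {i j : ℕ} {x y z : V} (h : R G i x y) (h' : R G j y z) : R G (i + j) x z := by
  obtain ⟨p, hp⟩ := h
  obtain ⟨q, hq⟩ := h'
  exact ⟨p.append q, by rw [Walk.length_append, hp, hq]⟩

theorem R.eq_of_zero {x y : V} (h : R G 0 x y) : x = y := by
  obtain ⟨p, hp⟩ := h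
  exact Walk.eq_of_length_eq_zero hp

/-- the ball of radius `t - 1` -/
noncomputable def Ball (G : SimpleGraph V) (t : ℕ) (w : V) : Finset V :=
  (range t).biUnion (fun i => Wf G i w)

theorem mem_Ball {t : ℕ} {w y : V} : y ∈ Ball G t w ↔ ∃ i < t, R G i w y := by
  simp only [Ball, mem_biUnion, mem_range, mem_Wf]

theorem card_Ball {d : ℕ} (hd : ∀ v, (G.neighborSet v).ncard ≤ d) (hd1 : 1 ≤ d) {t : ℕ}
    (w : V) : (Ball G t w).card ≤ t * d ^ (t - 1) := by
  calc (Ball G t w).card ≤ (range t).card * d ^ (t - 1) := by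
        apply card_biUnion_le_card_mul
        intro i hi
        rw [mem_range] at hi
        exact (card_Wf hd i w).trans (Nat.pow_le_pow_right hd1 (by omega))
    _ = t * d ^ (t - 1) := by rw [card_range]

theorem main {t j : ℕ} (ht : 1 ≤ t) {d : ℕ} (hd : ∀ v, (G.neighborSet v).ncard ≤ d)
    (hc : NoCyc G (3 * t + 2 * j)) (v : V) :
    (T G t v).card ≤ (t + (t + 2 * j + 2) * t + 2 * (t + 2 * j + 5) * j) * d ^ (2 * t - 1) := by
  by_contra hcon
  rw [not_le] at hcon
  set K1 := (t + 2 * j + 2) * t with hK1
  set M := t + 2 * j + 5 with hM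
  have hTne : (T G t v).Nonempty := by
    rw [← card_pos]; omega
  have hd1 : 1 ≤ d := by
    obtain ⟨q, hq⟩ := hTne
    rw [mem_T] at hq
    obtain ⟨c, hc, -⟩ := first_step ht (dist_R ht hq.1)
    have h1 := card_Nb hd v
    have h2 : 0 < (Nb G v).card := card_pos.2 ⟨c, mem_Nb.2 hc⟩
    omega
  -- a starting point
  obtain ⟨x, hx⟩ : ∃ x, x ∈ S G t v M (K1 * d ^ (t - 1)) j := by
    by_contra hno
    push Not at hno
    have h1 := card_out hd hd1 ht v M K1 j
    rw [filter_true_of_mem (fun q _ => hno q.1)] at h1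
    omega
  have hvx : G.dist v x = t := by
    cases j with
    | zero => exact mem_Sp.1 (mem_S_zero.1 hx).1
    | succ j => exact mem_Sp.1 (mem_S_succ.1 hx).1
  obtain ⟨P, hPl⟩ := dist_R ht hvx
  have hP : P.IsPath := geo_isPath hvx P hPl
  obtain ⟨x', hx', Z, hZ, hZl, hZA⟩ := zigzag t v M (K1 * d ^ (t - 1)) j x hx P.support.toFinset (by
    have h1 := List.toFinset_card_le P.support
    rw [Walk.length_support] at h1
    omega)
  rw [mem_S_zero, mem_Sp] at hx'
  obtain ⟨hvx', hgd⟩ := hx'
  -- the third vertex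
  let W : Finset V := ((P.support ++ Z.support).toFinset.erase v).erase x'
  have hWcard : W.card ≤ t + 2 * j + 2 := by
    have h1 := List.toFinset_card_le (P.support ++ Z.support)
    rw [List.length_append, Walk.length_support, Walk.length_support] at h1
    have h2 : W.card ≤ (P.support ++ Z.support).toFinset.card :=
      card_le_card ((erase_subset _ _).trans (erase_subset _ _))
    omega
  obtain ⟨y, hy, hyW⟩ : ∃ y ∈ Gd G t v x', y ∉ W.biUnion (Ball G t) := by
    apply exists_mem_notMem_of_card_lt_card
    refine lt_of_le_of_lt ?_ hgd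
    calc (W.biUnion (Ball G t)).card ≤ W.card * (t * d ^ (t - 1)) :=
          card_biUnion_le_card_mul _ _ _ (fun w _ => card_Ball hd hd1 w)
      _ ≤ (t + 2 * j + 2) * (t * d ^ (t - 1)) := Nat.mul_le_mul_right _ hWcard
      _ = K1 * d ^ (t - 1) := by rw [hK1]; ring
  rw [mem_Gd] at hy
  obtain ⟨-, hvy, hxy, hbad⟩ := hy
  obtain ⟨Q, hQl⟩ := dist_R ht hxy
  have hQ : Q.IsPath := geo_isPath hxy Q hQl
  obtain ⟨P', hP'l⟩ := dist_R ht hvy
  have hP' : P'.IsPath := geo_isPath hvy P' hP'l
  have hvnex' : v ≠ x' := by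
    rintro rfl
    rw [SimpleGraph.dist_self] at hvx'
    omega
  have hW : ∀ w, w ∈ P.support ∨ w ∈ Z.support → w ≠ v → w ≠ x' → ∀ i, i < t → ¬ R G i w y := by
    intro w hw h1 h2 i hi hR
    apply hyW
    rw [mem_biUnion]
    refine ⟨w, ?_, mem_Ball.2 ⟨i, hi, hR⟩⟩
    rw [mem_erase, mem_erase, List.mem_toFinset, List.mem_append]
    exact ⟨h2, h1, hw⟩
  -- (1)
  have hf1 : ∀ w ∈ Q.support, w ∈ P.support ∨ w ∈ Z.support → w = x' := by
    intro w hw hPZ
    by_contra hne
    obtain ⟨i, k, hik, h1, h2⟩ := split Q hw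
    have hi : i ≠ 0 := by
      rintro rfl
      exact hne h1.eq_of_zero.symm
    by_cases hwv : w = v
    · subst hwv
      have := h2.dist_le
      omega
    · exact hW w hPZ hwv hne k (by omega) h2
  -- (2)
  have hf2 : ∀ w ∈ P'.support, w ∈ P.support ∨ w ∈ Z.support → w = v := by
    intro w hw hPZ
    by_contra hne
    obtain ⟨i, k, hik, h1, h2⟩ := split P' hw
    have hi : i ≠ 0 := by
      rintro rfl
      exact hne h1.eq_of_zero.symm
    by_cases hwx : w = x'
    · subst hwx
      have := h2.dist_le
      omega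
    · exact hW w hPZ hne hwx k (by omega) h2
  -- (3)
  have hf3 : ∀ w ∈ Q.support, w ∈ P'.support → w = y := by
    intro w hwQ hwP'
    by_contra hne
    obtain ⟨i, k, hik, h1, h2⟩ := split Q hwQ
    obtain ⟨i', k', hik', h1', h2'⟩ := split P' hwP'
    have e1 := (h1.trans h2').dist_le
    have e2 := (h1'.trans h2).dist_le
    have hkk : k = k' := by omega
    subst hkk
    have hii : i = i' := by omega
    subst hii
    have hk0 : k ≠ 0 := by
      rintro rfl
      exact hne h2.eq_of_zero
    have hi0 : i ≠ 0 := by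
      rintro rfl
      exact hvnex' (h1'.eq_of_zero.trans h1.eq_of_zero.symm)
    apply hbad
    exact ⟨k, i, by omega, by omega, by omega, w, h1', h1.symm, h2⟩
  -- the long path
  have hPZ : (P.append Z).IsPath := append_isPath hP hZ (by
    intro z hz hz'
    exact hZA z hz' (List.mem_toFinset.2 hz))
  have hsupp : ∀ w, w ∈ (P.append Z).support → w ∈ P.support ∨ w ∈ Z.support := by
    intro w hw
    rwa [Walk.mem_support_append_iff] at hw
  have hPZQ : ((P.append Z).append Q).IsPath := append_isPath hPZ hQ (by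
    intro z hz hz'
    exact hf1 z hz' (hsupp z hz))
  -- the cycle
  cases P' with
  | nil => simp only [Walk.length_nil] at hP'l; omega
  | @cons _ b _ h p =>
    rw [Walk.cons_isPath_iff] at hP'
    obtain ⟨hp, hvp⟩ := hP'
    rw [Walk.length_cons] at hP'l
    have hpsub : ∀ w ∈ p.support, w ∈ (Walk.cons h p).support := by
      intro w hw
      rw [Walk.support_cons]
      exact List.mem_cons_of_mem _ hw
    have hint : ∀ w ∈ p.support, w ∈ ((P.append Z).append Q).support → w = y := by
      intro w hw hw'
      rw [Walk.mem_support_append_iff] at hw'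
      rcases hw' with hw' | hw'
      · have h1 := hf2 w (hpsub w hw) (hsupp w hw')
        subst h1
        exact absurd hw hvp
      · exact hf3 w hw' (hpsub w hw)
    have hpath : (p.append ((P.append Z).append Q).reverse).IsPath := by
      apply append_isPath hp (Walk.IsPath.reverse hPZQ)
      intro z hz hz'
      rw [Walk.support_reverse, List.mem_reverse] at hz'
      exact hint z hz hz'
    apply hc
    refine ⟨v, Walk.cons h (p.append ((P.append Z).append Q).reverse), ?_, ?_⟩
    · rw [Walk.cons_isCycle_iff]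
      refine ⟨hpath, ?_⟩
      intro he
      rw [Walk.edges_append, List.mem_append] at he
      rcases he with he | he
      · exact hvp (Walk.fst_mem_support_of_mem_edges _ he)
      · rw [Walk.edges_reverse, List.mem_reverse] at he
        have hb : b ∈ ((P.append Z).append Q).support := Walk.snd_mem_support_of_mem_edges _ he
        have hby := hint b (Walk.start_mem_support _) hb
        rw [Walk.edges_append, List.mem_append] at he
        rcases he with he | he
        · have h1 : b ∈ (P.append Z).support := Walk.snd_mem_support_of_mem_edges _ he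
          have h2 := hf1 b (by rw [hby]; exact Walk.end_mem_support _) (hsupp b h1)
          rw [← h2, hby, SimpleGraph.dist_self] at hxy
          omega
        · have h1 : v ∈ Q.support := Walk.fst_mem_support_of_mem_edges _ he
          exact hvnex' (hf1 v h1 (Or.inl (Walk.start_mem_support _)))
    · rw [Walk.length_cons, Walk.length_append, Walk.length_reverse, Walk.length_append,
        Walk.length_append, hPl, hZl, hQl]
      omega

theorem t_E : S_E := by
  intro t j ht
  refine ⟨t + (t + 2 * j + 2) * t + 2 * (t + 2 * j + 5) * j, ?_⟩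
  intro V _ G d hd hc v
  have h := main ht hd hc v
  refine le_trans (le_of_eq ?_) h
  rw [← Set.ncard_coe_finset]
  congr 1
  ext q
  simp [mem_T]

end Pool.Agent.TH444.DC.Few
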