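import Pool.Agent.TH444.DC.Few2

set_option autoImplicit false

/-!
# Upper bounds: degrees and neighbourhoods in the power of a graph
-/

namespace Pool.Agent.TH444.DC.Up

open Finset SimpleGraph Pool.Agent.TH444.DC.Few
open Classical

set_option linter.unusedSectionVars false

/-- greedy colouring -/
theorem greedy {V : Type} [Fintype V] (H : SimpleGraph V) (D : ℕ)
    (hD : ∀ v, (H.neighborSet v).ncard ≤ D) : H.Colorable (D + 1) := by
  have key : ∀ U : Finset V, ∃ f : V → Fin (D + 1), ∀ x ∈ U, ∀ y ∈ U, H.Adj x y → f x ≠ f y := by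
    intro U
    induction U using Finset.induction_on with
    | empty => exact ⟨fun _ => 0, by simp⟩
    | insert v U hv ih =>
      obtain ⟨f, hf⟩ := ih
      obtain ⟨c, hc⟩ : ∃ c : Fin (D + 1), c ∉ (Nb H v).image f := by
        by_contra hcon
        push Not at hcon
        have h1 : (univ : Finset (Fin (D + 1))) ⊆ (Nb H v).image f := fun c _ => hcon c
        have h2 := card_le_card h1
        rw [card_univ, Fintype.card_fin] at h2
        have h3 : ((Nb H v).image f).card ≤ (Nb H v).card := card_image_le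
        have h4 := card_Nb hD v
        omega
      refine ⟨Function.update f v c, ?_⟩
      intro x hx y hy hxy
      by_cases hxv : x = v
      · subst hxv
        have hyx : y ≠ x := hxy.ne.symm
        rw [Function.update_self, Function.update_of_ne hyx]
        intro h
        exact hc (mem_image.2 ⟨y, mem_Nb.2 hxy, h.symm⟩)
      · by_cases hyv : y = v
        · subst hyv
          rw [Function.update_self, Function.update_of_ne hxv]
          intro h
          exact hc (mem_image.2 ⟨x, mem_Nb.2 hxy.symm, h⟩)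
        · rw [Function.update_of_ne hxv, Function.update_of_ne hyv]
          rw [mem_insert] at hx hy
          exact hf x (hx.resolve_left hxv) y (hy.resolve_left hyv) hxy
  obtain ⟨f, hf⟩ := key univ
  exact ⟨Coloring.mk f (fun {x y} h => hf x (mem_univ _) y (mem_univ _) h)⟩

variable {V : Type} [Fintype V] {G : SimpleGraph V}

theorem pw_walk {t : ℕ} {x y : V} (h : (pw G t).Adj x y) : ∃ i ≤ t, R G i x y := by
  rw [pw, SimpleGraph.fromRel_adj] at h
  rcases h.2 with ⟨p, hp⟩ | ⟨p, hp⟩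
  · exact ⟨p.length, hp, p, rfl⟩
  · exact ⟨p.length, hp, p.reverse, Walk.length_reverse p⟩

theorem pw_ball {t : ℕ} {x y : V} (h : (pw G t).Adj x y) : y ∈ Ball G (t + 1) x := by
  obtain ⟨i, hi, hR⟩ := pw_walk h
  exact mem_Ball.2 ⟨i, by omega, hR⟩

theorem pw_near {t : ℕ} {x y : V} (h : (pw G t).Adj x y) (hd : G.dist x y ≠ t) :
    y ∈ Ball G t x := by
  obtain ⟨i, hi, hR⟩ := pw_walk h
  have h1 := hR.dist_le
  have hreach : G.Reachable x y := by
    obtain ⟨p, -⟩ := hR
    exact ⟨p⟩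
  obtain ⟨p, hp⟩ := hreach.exists_walk_length_eq_dist
  exact mem_Ball.2 ⟨G.dist x y, by omega, p, hp⟩

theorem card_Ball_succ {d : ℕ} (hd : ∀ v, (G.neighborSet v).ncard ≤ d) (hd1 : 1 ≤ d) {t : ℕ}
    (w : V) : (Ball G (t + 1) w).card ≤ (t + 1) * d ^ t := by
  have := card_Ball hd hd1 (t := t + 1) w
  simpa using this

theorem deg_pw {d : ℕ} (hd : ∀ v, (G.neighborSet v).ncard ≤ d) (hd1 : 1 ≤ d) (t : ℕ) (v : V) :
    ((pw G t).neighborSet v).ncard ≤ (t + 1) * d ^ t := by
  refine le_trans ?_ (card_Ball_succ hd hd1 v)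
  rw [← Set.ncard_coe_finset]
  apply Set.ncard_le_ncard _ (Set.toFinite _)
  intro y hy
  exact pw_ball hy

/-- the number of adjacent pairs in a neighbourhood of the power -/
theorem ep_pw {d : ℕ} (hd : ∀ v, (G.neighborSet v).ncard ≤ d) (hd1 : 1 ≤ d) {t : ℕ}
    (ht : 1 ≤ t) (K : ℕ) (v : V) (hK : {q : V × V | G.dist v q.1 = t ∧ G.dist v q.2 = t ∧
      G.dist q.1 q.2 = t}.ncard ≤ K * d ^ (2 * t - 1)) :
    {q : V × V | (pw G t).Adj v q.1 ∧ (pw G t).Adj v q.2 ∧ (pw G t).Adj q.1 q.2}.ncard ≤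
      (K + 3 * (t * (t + 1))) * d ^ (2 * t - 1) := by
  have hpow : d ^ (t - 1) * d ^ t = d ^ (2 * t - 1) := by
    rw [← pow_add]; congr 1; omega
  let A1 : Finset (V × V) := (Ball G t v) ×ˢ (Ball G (t + 1) v)
  let A2 : Finset (V × V) := (Ball G (t + 1) v) ×ˢ (Ball G t v)
  let A3 : Finset (V × V) := (Ball G (t + 1) v).biUnion
    (fun x => (Ball G t x).image (fun y => (x, y)))
  have hsub : {q : V × V | (pw G t).Adj v q.1 ∧ (pw G t).Adj v q.2 ∧ (pw G t).Adj q.1 q.2} ⊆
      {q : V × V | G.dist v q.1 = t ∧ G.dist v q.2 = t ∧ G.dist q.1 q.2 = t} ∪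
        ((A1 ∪ (A2 ∪ A3) : Finset (V × V)) : Set (V × V)) := by
    rintro ⟨x, y⟩ ⟨h1, h2, h3⟩
    simp only at h1 h2 h3
    by_cases e1 : G.dist v x = t
    · by_cases e2 : G.dist v y = t
      · by_cases e3 : G.dist x y = t
        · left; exact ⟨e1, e2, e3⟩
        · right
          rw [mem_coe, mem_union, mem_union]
          right; right
          exact mem_biUnion.2 ⟨x, pw_ball h1, mem_image.2 ⟨y, pw_near h3 e3, rfl⟩⟩
      · right
        rw [mem_coe, mem_union, mem_union]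
        right; left
        exact mem_product.2 ⟨pw_ball h1, pw_near h2 e2⟩
    · right
      rw [mem_coe, mem_union]
      left
      exact mem_product.2 ⟨pw_near h1 e1, pw_ball h2⟩
  have c1 : A1.card ≤ t * (t + 1) * d ^ (2 * t - 1) := by
    rw [card_product, ← hpow]
    calc _ ≤ (t * d ^ (t - 1)) * ((t + 1) * d ^ t) :=
          Nat.mul_le_mul (card_Ball hd hd1 v) (card_Ball_succ hd hd1 v)
      _ = _ := by ring
  have c2 : A2.card ≤ t * (t + 1) * d ^ (2 * t - 1) := by
    rw [card_product, ← hpow]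
    calc _ ≤ ((t + 1) * d ^ t) * (t * d ^ (t - 1)) :=
          Nat.mul_le_mul (card_Ball_succ hd hd1 v) (card_Ball hd hd1 v)
      _ = _ := by ring
  have c3 : A3.card ≤ t * (t + 1) * d ^ (2 * t - 1) := by
    calc _ ≤ (Ball G (t + 1) v).card * (t * d ^ (t - 1)) := by
          apply card_biUnion_le_card_mul
          intro x _
          exact card_image_le.trans (card_Ball hd hd1 x)
      _ ≤ ((t + 1) * d ^ t) * (t * d ^ (t - 1)) :=
          Nat.mul_le_mul_right _ (card_Ball_succ hd hd1 v)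
      _ = _ := by rw [← hpow]; ring
  calc _ ≤ _ := Set.ncard_le_ncard hsub (Set.toFinite _)
    _ ≤ _ := Set.ncard_union_le _ _
    _ ≤ K * d ^ (2 * t - 1) + (A1.card + (A2.card + A3.card)) := by
        apply Nat.add_le_add hK
        rw [Set.ncard_coe_finset]
        refine (card_union_le _ _).trans (Nat.add_le_add_left ?_ _)
        exact card_union_le _ _
    _ ≤ K * d ^ (2 * t - 1) + (t * (t + 1) * d ^ (2 * t - 1) + (t * (t + 1) * d ^ (2 * t - 1) +
          t * (t + 1) * d ^ (2 * t - 1))) := by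
        apply Nat.add_le_add_left
        exact Nat.add_le_add c1 (Nat.add_le_add c2 c3)
    _ = _ := by ring

/-- the partition and the colouring of the parts together -/
theorem combine (hF1 : S_F1) {V : Type} [Fintype V] (H : SimpleGraph V) (D E m r s k : ℕ)
    (hD : ∀ v, (H.neighborSet v).ncard ≤ D)
    (hE : ∀ v, {q : V × V | H.Adj v q.1 ∧ H.Adj v q.2 ∧ H.Adj q.1 q.2}.ncard ≤ E)
    (hm : 1 ≤ m) (h1 : 6 * D ≤ m * r) (h2 : 6 * E ≤ m ^ 2 * s)
    (h3 : 16 * (D + 1) ^ 2 ≤ 2 ^ r) (h4 : 16 * (D + 1) ^ 2 ≤ 2 ^ s)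
    (hF2 : ∀ (V : Type) [Fintype V] (H : SimpleGraph V) (b : ℕ), 4 * b ≤ k →
      (∀ v, (H.neighborSet v).ncard ≤ r) →
      (∀ v, ∃ B : Set V, B.ncard ≤ b ∧
        ∀ x y, H.Adj v x → H.Adj v y → H.Adj x y → x ∈ B ∨ y ∈ B) → H.Colorable k)
    (hk : 8 * s ≤ k) : H.Colorable (m * k) := by
  obtain ⟨π, hπ⟩ := hF1 V H D E m r s hD hE hm h1 h2 h3 h4
  let H' : SimpleGraph V := SimpleGraph.mk (fun x y => H.Adj x y ∧ π x = π y)
    ⟨fun x y h => ⟨h.1.symm, h.2.symm⟩⟩ ⟨fun x h => h.1.ne rfl⟩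
  have hadj : ∀ x y, H'.Adj x y ↔ H.Adj x y ∧ π x = π y := fun _ _ => Iff.rfl
  obtain ⟨ψ⟩ := hF2 V H' (2 * s) (by omega) (by
    intro v
    refine le_trans (le_of_eq ?_) (hπ v).1
    congr 1
    ext u
    rw [SimpleGraph.mem_neighborSet, hadj]
    exact and_congr_right fun _ => eq_comm) (by
    intro v
    obtain ⟨-, B, hB, hB2⟩ := hπ v
    refine ⟨B, hB, fun x y hx hy hxy => ?_⟩
    rw [hadj] at hx hy hxy
    exact hB2 x y hx.1 hy.1 hx.2.symm hy.2.symm hxy.1)
  have hcol : H.Coloring (Fin m × Fin k) := Coloring.mk (fun v => (π v, ψ v)) (by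
    intro x y hxy heq
    rw [Prod.mk.injEq] at heq
    exact ψ.valid ((hadj x y).2 ⟨hxy, heq.1⟩) heq.2)
  have := hcol.colorable
  rwa [Fintype.card_prod, Fintype.card_fin, Fintype.card_fin] at this

end Pool.Agent.TH444.DC.Up
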